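import Mathlib

/-!
# The triangular system of linear forms
-/

set_option autoImplicit false

namespace Pool.Agent.J4.H52.FS

open Real

section

variable {B B' : Type} {J0 : ℕ}

/-- the index type of the coordinates -/
abbrev Ix (B B' : Type) (J0 : ℕ) : Type := (B × Fin (J0 + 1) × Bool) ⊕ B'

open Classical in
/-- the forms with small values -/
noncomputable def VV (β : B) (j : Fin (J0 + 1)) : Ix B B' J0 → ℝ :=
  Pi.single (Sum.inl (β, j, false)) 1 + goldenConj • Pi.single (Sum.inl (β, j, true)) 1

open Classical in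
lemma VV_true (β β2 : B) (j j2 : Fin (J0 + 1)) : (VV β j : Ix B B' J0 → ℝ)
    (Sum.inl (β2, j2, true)) = if β2 = β ∧ j2 = j then goldenConj else 0 := by
  classical
  unfold VV
  simp [Pi.single_apply]

open Classical in
lemma VV_false (β β2 : B) (j j2 : Fin (J0 + 1)) : (VV β j : Ix B B' J0 → ℝ)
    (Sum.inl (β2, j2, false)) = if β2 = β ∧ j2 = j then 1 else 0 := by
  classical
  unfold VV
  simp [Pi.single_apply]

lemma VV_inr (β : B) (j : Fin (J0 + 1)) (β' : B') : (VV β j : Ix B B' J0 → ℝ) (Sum.inr β') = 0 := by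
  classical
  unfold VV
  simp

lemma alg_conj : IsAlgebraic ℚ goldenConj := by
  refine ⟨Polynomial.X ^ 2 - Polynomial.X - 1, ?_, ?_⟩
  · intro h
    have := congrArg (Polynomial.eval 2) h
    norm_num at this
  · simp

lemma VV_alg (β : B) (j : Fin (J0 + 1)) (t : Ix B B' J0) :
    (VV β j : Ix B B' J0 → ℝ) t ∈ algebraicClosure ℚ ℝ := by
  classical
  have h1 : goldenConj ∈ algebraicClosure ℚ ℝ := mem_algebraicClosure_iff.2 alg_conj
  unfold VV
  simp only [Pi.add_apply, Pi.smul_apply, Pi.single_apply, smul_eq_mul]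
  refine add_mem ?_ (mul_mem h1 ?_)
  · split_ifs
    · exact one_mem _
    · exact zero_mem _
  · split_ifs
    · exact one_mem _
    · exact zero_mem _

section

variable [Fintype B]

open Classical in
/-- the linear forms -/
noncomputable def Mx (l : B' → B → ℝ) : Ix B B' J0 → Ix B B' J0 → ℝ
  | Sum.inl (β, j, true) => Pi.single (Sum.inl (β, j, true)) 1
  | Sum.inl (β, j, false) => VV β j - (if j = Fin.last J0 then 0 else VV β (Fin.last J0))
  | Sum.inr β' => Pi.single (Sum.inr β') 1 + ∑ β, l β' β • VV β (Fin.last J0)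

/-- the ranks of the coordinates -/
def rk : Ix B B' J0 → ℕ
  | Sum.inl (_, _, true) => 0
  | Sum.inl (_, j, false) => if j = Fin.last J0 then 1 else 2
  | Sum.inr _ => 3

lemma Mx_alg (l : B' → B → ℚ) (i t : Ix B B' J0) :
    IsAlgebraic ℚ (Mx (fun β' β => (l β' β : ℝ)) i t) := by
  classical
  rw [← mem_algebraicClosure_iff]
  rcases i with ⟨β, j, _ | _⟩ | β'
  · simp only [Mx, Pi.sub_apply]
    refine sub_mem (VV_alg _ _ _) ?_
    split_ifs
    · exact zero_mem _
    · exact VV_alg _ _ _
  · simp only [Mx, Pi.single_apply]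
    split_ifs
    · exact one_mem _
    · exact zero_mem _
  · simp only [Mx, Pi.add_apply, Finset.sum_apply, Pi.smul_apply, smul_eq_mul]
    refine add_mem ?_ (sum_mem fun β _ => mul_mem ?_ (VV_alg _ _ _))
    · rw [Pi.single_apply]
      split_ifs
      · exact one_mem _
      · exact zero_mem _
    · exact (algebraicClosure ℚ ℝ).algebraMap_mem (l β' β)

lemma Mx_tri (l : B' → B → ℝ) (i t : Ix B B' J0) (h : Mx l i t ≠ 0) : i = t ∨ rk t < rk i := by
  classical
  rcases i with ⟨β, j, _ | _⟩ | β'
  · rcases t with ⟨β2, j2, _ | _⟩ | β2'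
    · simp only [Mx, Pi.sub_apply, VV_false] at h
      by_cases h1 : β2 = β ∧ j2 = j
      · left
        rw [h1.1, h1.2]
      · right
        rw [if_neg h1] at h
        by_cases hj : j = Fin.last J0
        · simp [hj] at h
        · rw [if_neg hj, VV_false] at h
          by_cases h2 : β2 = β ∧ j2 = Fin.last J0
          · simp only [rk]
            rw [if_pos h2.2, if_neg hj]
            omega
          · simp [h2] at h
    · right
      simp only [rk]
      split_ifs <;> omega
    · exfalso
      simp only [Mx, Pi.sub_apply, VV_inr] at h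
      by_cases hj : j = Fin.last J0
      · simp [hj] at h
      · rw [if_neg hj, VV_inr] at h
        simp at h
  · left
    simp only [Mx, Pi.single_apply] at h
    by_contra hne
    exact h (if_neg (fun h2 => hne h2.symm))
  · rcases t with ⟨β2, j2, _ | _⟩ | β2'
    · right
      simp only [rk]
      split_ifs <;> omega
    · right
      simp only [rk]
      omega
    · left
      simp only [Mx, Pi.add_apply, Finset.sum_apply, Pi.smul_apply, smul_eq_mul, VV_inr, mul_zero,
        Finset.sum_const_zero, add_zero, Pi.single_apply] at h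
      by_contra hne
      exact h (if_neg (fun h2 => hne h2.symm))

lemma Mx_diag (l : B' → B → ℝ) (i : Ix B B' J0) : Mx l i i ≠ 0 := by
  classical
  rcases i with ⟨β, j, _ | _⟩ | β'
  · simp only [Mx, Pi.sub_apply, VV_false]
    by_cases hj : j = Fin.last J0
    · simp [hj]
    · rw [if_neg hj, VV_false, if_pos ⟨trivial, trivial⟩, if_neg (fun h => hj h.2)]
      simp
  · simp [Mx]
  · simp [Mx, VV_inr]

variable [Fintype B']

open Classical in
lemma dot_single (x : Ix B B' J0 → ℝ) (a : Ix B B' J0) :
    ∑ t, (Pi.single a 1 : Ix B B' J0 → ℝ) t * x t = x a := by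
  rw [Finset.sum_eq_single a]
  · simp
  · intro t _ ht
    rw [Pi.single_eq_of_ne ht, zero_mul]
  · intro h
    exact absurd (Finset.mem_univ a) h

lemma dot_VV (x : Ix B B' J0 → ℝ) (β : B) (j : Fin (J0 + 1)) :
    ∑ t, (VV β j : Ix B B' J0 → ℝ) t * x t =
      x (Sum.inl (β, j, false)) + goldenConj * x (Sum.inl (β, j, true)) := by
  classical
  unfold VV
  simp only [Pi.add_apply, Pi.smul_apply, smul_eq_mul, add_mul, Finset.sum_add_distrib, mul_assoc]
  rw [← Finset.mul_sum, dot_single, dot_single]

lemma dot_true (l : B' → B → ℝ) (x : Ix B B' J0 → ℝ) (β : B) (j : Fin (J0 + 1)) :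
    ∑ t, Mx l (Sum.inl (β, j, true)) t * x t = x (Sum.inl (β, j, true)) := by
  classical
  simp only [Mx]
  exact dot_single x _

lemma dot_last (l : B' → B → ℝ) (x : Ix B B' J0 → ℝ) (β : B) :
    ∑ t, Mx l (Sum.inl (β, Fin.last J0, false)) t * x t =
      x (Sum.inl (β, Fin.last J0, false)) + goldenConj * x (Sum.inl (β, Fin.last J0, true)) := by
  classical
  simp only [Mx, if_true, sub_zero]
  exact dot_VV x _ _

lemma dot_false (l : B' → B → ℝ) (x : Ix B B' J0 → ℝ) (β : B) (j : Fin (J0 + 1))
    (hj : j ≠ Fin.last J0) :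
    ∑ t, Mx l (Sum.inl (β, j, false)) t * x t =
      (x (Sum.inl (β, j, false)) + goldenConj * x (Sum.inl (β, j, true))) -
      (x (Sum.inl (β, Fin.last J0, false)) + goldenConj * x (Sum.inl (β, Fin.last J0, true))) := by
  classical
  simp only [Mx, if_neg hj, Pi.sub_apply, sub_mul, Finset.sum_sub_distrib]
  rw [dot_VV, dot_VV]

lemma dot_inr (l : B' → B → ℝ) (x : Ix B B' J0 → ℝ) (β' : B') :
    ∑ t, Mx l (Sum.inr β') t * x t = x (Sum.inr β') + ∑ β, l β' β *
      (x (Sum.inl (β, Fin.last J0, false)) + goldenConj * x (Sum.inl (β, Fin.last J0, true))) := by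
  classical
  simp only [Mx, Pi.add_apply, Finset.sum_apply, Pi.smul_apply, smul_eq_mul, add_mul,
    Finset.sum_add_distrib, Finset.sum_mul]
  rw [dot_single, Finset.sum_comm]
  congr 1
  refine Finset.sum_congr rfl fun β _ => ?_
  rw [← dot_VV, Finset.mul_sum]
  refine Finset.sum_congr rfl fun t _ => ?_
  ring

/-- sums over the index type -/
lemma sum_ix (f : Ix B B' J0 → ℝ) : ∑ t, f t =
    ∑ β, ∑ j, (f (Sum.inl (β, j, true)) + f (Sum.inl (β, j, false))) + ∑ β', f (Sum.inr β') := by
  rw [Fintype.sum_sum_type, Fintype.sum_prod_type]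
  simp only [Fintype.sum_prod_type, Fintype.sum_bool]

end

end

end Pool.Agent.J4.H52.FS
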