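import Mathlib

/-!
# Spans of monomials in germs of sequences, and their dimensions
-/

set_option autoImplicit false

namespace Pool.Agent.J4.H52.FS

open Filter Module

/-- a sequence of natural numbers of polynomial growth has a slow step -/
lemma growth (d : ℕ → ℕ) (k : ℕ) (h0 : 1 ≤ d 0) (hd : ∀ M, d M ≤ (M + 1) ^ k) (η : ℝ)
    (hη : 0 < η) (hη1 : η < 1) : ∃ M, (1 - η) * d (M + 1) ≤ d M := by
  by_contra hcon
  push Not at hcon
  obtain ⟨r, hr⟩ : ∃ r : ℝ, r = 1 / (1 - η) := ⟨_, rfl⟩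
  have h1η : 0 < 1 - η := by linarith
  have hr1 : 1 < r := by
    rw [hr, lt_div_iff₀ h1η]
    linarith
  have hmul : (1 - η) * r = 1 := by
    rw [hr]
    field_simp
  have hlow : ∀ M, r ^ M ≤ d M := by
    intro M
    induction M with
    | zero => simpa using (by exact_mod_cast h0 : (1 : ℝ) ≤ d 0)
    | succ M ih =>
      have h1 := hcon M
      have h2 : r ^ M < (1 - η) * d (M + 1) := lt_of_le_of_lt ih h1
      have h3 : r ^ (M + 1) = r * r ^ M := by ring
      rw [h3]
      have hr0 : 0 < r := by linarith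
      have h4 : r * r ^ M < r * ((1 - η) * d (M + 1)) := mul_lt_mul_of_pos_left h2 hr0
      have h5 : r * ((1 - η) * d (M + 1)) = d (M + 1) := by
        rw [← mul_assoc, mul_comm r, hmul, one_mul]
      linarith
  have ht := tendsto_pow_const_div_const_pow_of_one_lt k hr1
  have h2 : ∀ᶠ n : ℕ in atTop, (n : ℝ) ^ k / r ^ n < 1 / r :=
    ht.eventually_lt_const (by positivity)
  obtain ⟨N, hN⟩ := eventually_atTop.1 h2
  have h3 := hN (N + 1) (by omega)
  have h4 := hlow N
  have h5 : ((d N : ℕ) : ℝ) ≤ ((N : ℝ) + 1) ^ k := by exact_mod_cast hd N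
  have hr0 : 0 < r := by linarith
  rw [div_lt_div_iff₀ (by positivity) hr0, one_mul, pow_succ] at h3
  push_cast at h3
  have h6 : ((N : ℝ) + 1) ^ k < r ^ N := lt_of_mul_lt_mul_right h3 hr0.le
  linarith

/-- eventually zero sequences -/
def Zq (𝒰 : Ultrafilter ℕ) : Submodule ℚ (ℕ → ℚ) where
  carrier := {f | ∀ᶠ n in (𝒰 : Filter ℕ), f n = 0}
  add_mem' := by
    intro f g hf hg
    filter_upwards [hf, hg] with n h1 h2
    simp [h1, h2]
  zero_mem' := Eventually.of_forall fun _ => rfl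
  smul_mem' := by
    intro c f hf
    filter_upwards [hf] with n h1
    simp [h1]

/-- monomials -/
def xq {k : ℕ} (x : Fin k → ℕ → ℚ) (μ : Fin k → ℕ) (n : ℕ) : ℚ := ∏ i, x i n ^ μ i

/-- exponents of degree `M` -/
abbrev Mon (k M : ℕ) : Type := {μ : Fin k → ℕ // μ ∈ Finset.piAntidiag Finset.univ M}

lemma card_mon (k M : ℕ) : Fintype.card (Mon k M) ≤ (M + 1) ^ k := by
  classical
  have h : (Finset.piAntidiag Finset.univ M : Finset (Fin k → ℕ)) ⊆
      Fintype.piFinset fun _ => Finset.range (M + 1) := by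
    intro μ hμ
    rw [Finset.mem_piAntidiag] at hμ
    rw [Fintype.mem_piFinset]
    intro i
    rw [Finset.mem_range]
    have h1 := Finset.single_le_sum (f := μ) (fun _ _ => Nat.zero_le _) (Finset.mem_univ i)
    have h2 : ∑ x, μ x = M := hμ.1
    have h3 : μ i ≤ M := h1.trans h2.le
    omega
  rw [Fintype.card_coe]
  refine (Finset.card_le_card h).trans ?_
  rw [Fintype.card_piFinset]
  simp

/-- the class of a monomial -/
def cl {k : ℕ} (𝒰 : Ultrafilter ℕ) (x : Fin k → ℕ → ℚ) (μ : Fin k → ℕ) : (ℕ → ℚ) ⧸ Zq 𝒰 :=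
  (Zq 𝒰).mkQ (xq x μ)

lemma comb_zero {𝒰 : Ultrafilter ℕ} {B : Type} [Fintype B] (f : B → ℕ → ℚ) (p : B → ℚ) :
    ∑ β, p β • (Zq 𝒰).mkQ (f β) = 0 ↔ ∀ᶠ n in (𝒰 : Filter ℕ), ∑ β, p β * f β n = 0 := by
  have h1 : ∑ β, p β • (Zq 𝒰).mkQ (f β) = (Zq 𝒰).mkQ (∑ β, p β • f β) := by
    rw [map_sum]
    exact Finset.sum_congr rfl fun β _ => (map_smul _ _ _).symm
  rw [h1, Submodule.mkQ_apply, Submodule.Quotient.mk_eq_zero]
  have h2 : (∑ β, p β • f β) = fun n => ∑ β, p β * f β n := by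
    funext n
    rw [Finset.sum_apply]
    rfl
  rw [h2]
  rfl

/-- the bases of monomials -/
theorem exists_bases {k : ℕ} (𝒰 : Ultrafilter ℕ) (x : Fin k → ℕ → ℚ)
    (hx : ∀ᶠ n in (𝒰 : Filter ℕ), ∑ i, x i n ≠ 0) (η : ℝ) (hη : 0 < η) (hη1 : η < 1) :
    ∃ (M : ℕ) (B B' : Type) (_ : Fintype B) (_ : Fintype B') (e : B → Fin k → ℕ)
      (e' : B' → Fin k → ℕ) (l : B' → B → ℚ), Nonempty B ∧
      (1 - η) * Fintype.card B ≤ Fintype.card B' ∧ Fintype.card B' ≤ Fintype.card B ∧
      (∀ β, ∑ i, e β i = M + 1) ∧ (∀ β, ∑ i, e' β i = M) ∧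
      (∀ p : B → ℚ, (∀ᶠ n in (𝒰 : Filter ℕ), ∑ β, p β * xq x (e β) n = 0) → p = 0) ∧
      (∀ p : B' → ℚ, (∀ᶠ n in (𝒰 : Filter ℕ), ∑ β, p β * xq x (e' β) n = 0) → p = 0) ∧
      ∀ β', ∀ᶠ n in (𝒰 : Filter ℕ), (∑ i, x i n) * xq x (e' β') n = ∑ β, l β' β * xq x (e β) n := by
  classical
  -- a basis for every degree
  have hB : ∀ M : ℕ, ∃ (B : Type) (_ : Fintype B) (a : B → Mon k M),
      Submodule.span ℚ (Set.range fun β => cl 𝒰 x (a β).1) =
        Submodule.span ℚ (Set.range fun μ : Mon k M => cl 𝒰 x μ.1) ∧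
      LinearIndependent ℚ (fun β => cl 𝒰 x (a β).1) ∧ Fintype.card B ≤ (M + 1) ^ k := by
    intro M
    obtain ⟨B, a, ha, hsp, hli⟩ := exists_linearIndependent' ℚ (fun μ : Mon k M => cl 𝒰 x μ.1)
    have hfin : Finite B := Finite.of_injective a ha
    have hft : Fintype B := Fintype.ofFinite B
    refine ⟨B, hft, a, hsp, hli, ?_⟩
    exact (Fintype.card_le_of_injective a ha).trans (card_mon k M)
  choose B hBf a hsp hli hcard using hB
  -- multiplication by the sum
  have hmulmem : ∀ (M : ℕ) (μ : Mon k M), (Zq 𝒰).mkQ (fun n => (∑ i, x i n) * xq x μ.1 n) ∈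
      Submodule.span ℚ (Set.range fun μ : Mon k (M + 1) => cl 𝒰 x μ.1) := by
    intro M μ
    have h1 : (fun n => (∑ i, x i n) * xq x μ.1 n) =
        ∑ i, xq x (μ.1 + Pi.single i 1) := by
      funext n
      rw [Finset.sum_apply, Finset.sum_mul]
      refine Finset.sum_congr rfl fun i _ => ?_
      unfold xq
      have h2 : ∀ j : Fin k, x j n ^ (μ.1 + Pi.single i 1 : Fin k → ℕ) j =
          x j n ^ μ.1 j * (if j = i then x i n else 1) := by
        intro j
        by_cases hj : j = i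
        · subst hj
          simp [pow_succ]
        · simp [hj, Pi.single_eq_of_ne hj]
      rw [Finset.prod_congr rfl fun j _ => h2 j, Finset.prod_mul_distrib,
        Finset.prod_ite_eq' Finset.univ i, if_pos (Finset.mem_univ i), mul_comm]
    rw [h1, map_sum]
    refine Submodule.sum_mem _ fun i _ => Submodule.subset_span ⟨⟨μ.1 + Pi.single i 1, ?_⟩, rfl⟩
    have hμ := μ.2
    rw [Finset.mem_piAntidiag] at hμ ⊢
    refine ⟨?_, fun _ _ => Finset.mem_univ _⟩
    have h4 : ∑ j, μ.1 j = M := hμ.1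
    simp [Finset.sum_add_distrib, h4]
  -- dimensions
  have hfr : ∀ M, finrank ℚ (Submodule.span ℚ (Set.range fun μ : Mon k M => cl 𝒰 x μ.1)) =
      Fintype.card (B M) := by
    intro M
    rw [← hsp M]
    exact finrank_span_eq_card (hli M)
  have hmono : ∀ M, Fintype.card (B M) ≤ Fintype.card (B (M + 1)) := by
    intro M
    rw [← hfr (M + 1)]
    have hfinspan : FiniteDimensional ℚ
        (Submodule.span ℚ (Set.range fun μ : Mon k (M + 1) => cl 𝒰 x μ.1)) :=
      FiniteDimensional.span_of_finite ℚ (Set.finite_range _)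
    let v : B M → Submodule.span ℚ (Set.range fun μ : Mon k (M + 1) => cl 𝒰 x μ.1) :=
      fun β => ⟨_, hmulmem M (a M β)⟩
    have hv : LinearIndependent ℚ v := by
      rw [Fintype.linearIndependent_iff]
      intro g hg
      have h1 : ∑ β, g β • (Zq 𝒰).mkQ (fun n => (∑ i, x i n) * xq x (a M β).1 n) = 0 := by
        have := congrArg Subtype.val hg
        simpa [v] using this
      rw [comb_zero] at h1
      have h2 : ∀ᶠ n in (𝒰 : Filter ℕ), ∑ β, g β * xq x (a M β).1 n = 0 := by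
        filter_upwards [h1, hx] with n h3 h4
        have h5 : (∑ i, x i n) * ∑ β, g β * xq x (a M β).1 n = 0 := by
          rw [Finset.mul_sum, ← h3]
          refine Finset.sum_congr rfl fun β _ => ?_
          ring
        exact (mul_eq_zero.1 h5).resolve_left h4
      have h3 : ∑ β, g β • cl 𝒰 x (a M β).1 = 0 := (comb_zero _ g).2 h2
      exact Fintype.linearIndependent_iff.1 (hli M) g h3
    exact hv.fintype_card_le_finrank
  have h0 : 1 ≤ Fintype.card (B 0) := by
    rw [← hfr 0]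
    have hfinspan : FiniteDimensional ℚ
        (Submodule.span ℚ (Set.range fun μ : Mon k 0 => cl 𝒰 x μ.1)) :=
      FiniteDimensional.span_of_finite ℚ (Set.finite_range _)
    rw [Nat.one_le_iff_ne_zero, Ne, Submodule.finrank_eq_zero]
    intro h
    have h1 : cl 𝒰 x (0 : Fin k → ℕ) ∈
        Submodule.span ℚ (Set.range fun μ : Mon k 0 => cl 𝒰 x μ.1) :=
      Submodule.subset_span ⟨⟨0, by simp [Finset.mem_piAntidiag]⟩, rfl⟩
    rw [h, Submodule.mem_bot] at h1
    unfold cl at h1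
    rw [Submodule.mkQ_apply, Submodule.Quotient.mk_eq_zero] at h1
    have h2 : ∀ᶠ n in (𝒰 : Filter ℕ), xq x 0 n = 0 := h1
    obtain ⟨n, hn⟩ := h2.exists
    unfold xq at hn
    simp at hn
  obtain ⟨M, hM⟩ := growth (fun M => Fintype.card (B M)) k h0 hcard η hη hη1
  have h1le : ∀ M, 1 ≤ Fintype.card (B M) := by
    intro M
    induction M with
    | zero => exact h0
    | succ M ih => exact ih.trans (hmono M)
  have hdeg : ∀ (M : ℕ) (β : B M), ∑ i, (a M β).1 i = M := by
    intro M β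
    have := (a M β).2
    rw [Finset.mem_piAntidiag] at this
    exact this.1
  have hind : ∀ (M : ℕ) (p : B M → ℚ),
      (∀ᶠ n in (𝒰 : Filter ℕ), ∑ β, p β * xq x (a M β).1 n = 0) → p = 0 := by
    intro M p hp
    have h3 : ∑ β, p β • cl 𝒰 x (a M β).1 = 0 := (comb_zero _ p).2 hp
    funext β
    exact Fintype.linearIndependent_iff.1 (hli M) p h3 β
  have hl : ∀ β' : B M, ∃ l : B (M + 1) → ℚ, ∀ᶠ n in (𝒰 : Filter ℕ),
      (∑ i, x i n) * xq x (a M β').1 n = ∑ β, l β * xq x (a (M + 1) β).1 n := by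
    intro β'
    have h1 := hmulmem M (a M β')
    rw [← hsp (M + 1), Submodule.mem_span_range_iff_exists_fun] at h1
    obtain ⟨l, hl⟩ := h1
    refine ⟨l, ?_⟩
    have h2 : ∑ o : Option (B (M + 1)), (o.elim (-1 : ℚ) l) • (Zq 𝒰).mkQ
        (o.elim (fun n => (∑ i, x i n) * xq x (a M β').1 n) fun β => xq x (a (M + 1) β).1) = 0 := by
      rw [Fintype.sum_option]
      simp only [Option.elim]
      have h3 : ∑ β, l β • (Zq 𝒰).mkQ (xq x (a (M + 1) β).1) =
          (Zq 𝒰).mkQ (fun n => (∑ i, x i n) * xq x (a M β').1 n) := hl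
      rw [h3, neg_one_smul, neg_add_cancel]
    rw [comb_zero] at h2
    filter_upwards [h2] with n hn
    rw [Fintype.sum_option] at hn
    simp only [Option.elim] at hn
    linarith
  choose l hl using hl
  refine ⟨M, B (M + 1), B M, hBf (M + 1), hBf M, fun β => (a (M + 1) β).1, fun β => (a M β).1, l,
    ?_, hM, hmono M, fun β => hdeg _ β, fun β => hdeg _ β, hind _, hind _, hl⟩
  exact Fintype.card_pos_iff.1 (h1le (M + 1))

end Pool.Agent.J4.H52.FS
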