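import Mathlib

/-!
# The number field generated by the golden ratio, and heights
-/

set_option autoImplicit false

namespace Pool.Agent.J4.H52.FS

open Polynomial NumberField Height Real

/-- the minimal polynomial of the golden ratio -/
noncomputable def gpoly : ℚ[X] := X ^ 2 - X - 1

lemma gpoly_deg : gpoly.natDegree = 2 := by
  unfold gpoly
  compute_degree!

lemma gpoly_irr : Irreducible gpoly := by
  refine Polynomial.irreducible_of_degree_le_three_of_not_isRoot ?_ ?_
  · rw [gpoly_deg]
    decide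
  · intro r hr
    have h1 : r ^ 2 - r - 1 = 0 := by
      have := hr
      unfold gpoly at this
      simpa [IsRoot] using this
    have h2 : ((r : ℝ) - goldenRatio) * ((r : ℝ) - goldenConj) = 0 := by
      have h3 : ((r : ℝ)) ^ 2 - r - 1 = 0 := by exact_mod_cast h1
      have h4 := goldenRatio_add_goldenConj
      have h5 := goldenRatio_mul_goldenConj
      have : ((r : ℝ) - goldenRatio) * ((r : ℝ) - goldenConj) =
        (r : ℝ) ^ 2 - (goldenRatio + goldenConj) * r + goldenRatio * goldenConj := by ring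
      rw [this, h4, h5]
      linarith
    rcases mul_eq_zero.1 h2 with h | h
    · exact goldenRatio_irrational ⟨r, by linarith⟩
    · exact goldenConj_irrational ⟨r, by linarith⟩

instance : Fact (Irreducible gpoly) := ⟨gpoly_irr⟩

/-- the field `ℚ(√5)` -/
noncomputable abbrev Kf : Type := AdjoinRoot gpoly

/-- the golden ratio in `Kf` -/
noncomputable def ph : Kf := AdjoinRoot.root gpoly

lemma eval_aux {r : ℝ} (hr : r ^ 2 = r + 1) : gpoly.eval₂ (algebraMap ℚ ℝ) r = 0 := by
  unfold gpoly
  simp [eval₂_sub, eval₂_pow, hr]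

/-- the two real embeddings -/
noncomputable def s1 : Kf →+* ℝ := AdjoinRoot.lift (algebraMap ℚ ℝ) goldenRatio
  (eval_aux goldenRatio_sq)

noncomputable def s2 : Kf →+* ℝ := AdjoinRoot.lift (algebraMap ℚ ℝ) goldenConj
  (eval_aux goldenConj_sq)

@[simp] lemma s1_ph : s1 ph = goldenRatio := AdjoinRoot.lift_root _

@[simp] lemma s2_ph : s2 ph = goldenConj := AdjoinRoot.lift_root _

lemma ph_ne : ph ≠ 0 := by
  intro h
  have := congrArg s1 h
  rw [s1_ph, map_zero] at this
  exact goldenRatio_pos.ne' this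

/-- a height bound for the archimedean absolute values -/
lemma log_abs_le {κ : Type} [Field κ] [NumberField κ] (s : κ →+* ℝ) (x : κ) :
    Real.log |s x| ≤ logHeight₁ x := by
  classical
  rw [NumberField.logHeight₁_eq]
  obtain ⟨v, hv⟩ : ∃ v : InfinitePlace κ, v x = |s x| := by
    refine ⟨InfinitePlace.mk ((algebraMap ℝ ℂ).comp s), ?_⟩
    rw [InfinitePlace.apply]
    simp
  have h1 : (0 : ℝ) ≤ ∑ᶠ v : FinitePlace κ, log⁺ (v x) :=
    finsum_nonneg fun v => posLog_nonneg
  have h2 : (v.mult : ℝ) * log⁺ (v x) ≤ ∑ w : InfinitePlace κ, (w.mult : ℝ) * log⁺ (w x) :=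
    Finset.single_le_sum (f := fun w : InfinitePlace κ => (w.mult : ℝ) * log⁺ (w x))
      (fun w _ => mul_nonneg (Nat.cast_nonneg _) posLog_nonneg) (Finset.mem_univ v)
  have h3 : (1 : ℝ) ≤ v.mult := by exact_mod_cast InfinitePlace.mult_pos
  have h4 : Real.log |s x| ≤ log⁺ (v x) := by
    rw [hv]
    exact le_max_right _ _
  have h5 : (0 : ℝ) ≤ log⁺ (v x) := posLog_nonneg
  nlinarith

/-- the height of an integer -/
lemma height_int {κ : Type} [Field κ] [NumberField κ] (m : ℤ) :
    logHeight₁ (m : κ) ≤ totalWeight κ * Real.log (max 1 |(m : ℝ)|) := by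
  classical
  have hfin : ∑ᶠ v : FinitePlace κ, log⁺ (v (m : κ)) = 0 := by
    refine finsum_eq_zero_of_forall_eq_zero fun v => ?_
    have h : IsNonarchimedean (v.1 : AbsoluteValue κ ℝ) := 
      FinitePlace.add_le v
    have h1 : v (m : κ) ≤ 1 := h.apply_intCast_le_one
    rw [posLog_eq_zero_iff, abs_of_nonneg (apply_nonneg _ _)]
    exact h1
  rw [NumberField.logHeight₁_eq, NumberField.totalWeight_eq_sum_mult, hfin, add_zero]
  push_cast
  rw [Finset.sum_mul]
  refine Finset.sum_le_sum fun v _ => ?_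
  refine mul_le_mul_of_nonneg_left ?_ (Nat.cast_nonneg _)
  rw [InfinitePlace.map_intCast, posLog_eq_log_max_one (norm_nonneg _)]
  simp [Int.norm_eq_abs]

end Pool.Agent.J4.H52.FS
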