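import Mathlib
import Pool.Agent.J4.H52.FS.Field

/-!
# Facts about Fibonacci numbers
-/

set_option autoImplicit false

namespace Pool.Agent.J4.H52.FS

open Real

lemma cassini (n : ℕ) :
    (Nat.fib (n + 1) : ℤ) ^ 2 - Nat.fib (n + 1) * Nat.fib n - (Nat.fib n : ℤ) ^ 2 = (-1) ^ n := by
  induction n with
  | zero => simp
  | succ n ih =>
    have h1 : (Nat.fib (n + 1 + 1) : ℤ) = Nat.fib n + Nat.fib (n + 1) := by
      exact_mod_cast Nat.fib_add_two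
    rw [h1, pow_succ (-1 : ℤ) n, ← ih]
    ring

lemma fib_dvd_sub_one (n j : ℕ) (hn : 1 ≤ n) :
    (Nat.fib n : ℤ) ∣ Nat.fib (4 * n * (j + 1) - 1) - 1 := by
  obtain ⟨t, rfl⟩ : ∃ t, n = t + 1 := ⟨n - 1, by omega⟩
  have hone : (Nat.fib (t + 1) : ℤ) ∣ Nat.fib (4 * (t + 1) - 1) - 1 := by
    have h1 : (Nat.fib (2 * t + 1) : ℤ) = (Nat.fib (t + 1) : ℤ) ^ 2 + (Nat.fib t : ℤ) ^ 2 := by
      exact_mod_cast Nat.fib_two_mul_add_one t
    have h2 : (Nat.fib (4 * (t + 1) - 1) : ℤ) =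
        (Nat.fib (2 * (t + 1)) : ℤ) ^ 2 + (Nat.fib (2 * t + 1) : ℤ) ^ 2 := by
      have h3 := Nat.fib_two_mul_add_one (2 * t + 1)
      have e1 : 2 * (2 * t + 1) + 1 = 4 * (t + 1) - 1 := by omega
      have e2 : 2 * t + 1 + 1 = 2 * (t + 1) := by ring
      rw [e1, e2] at h3
      exact_mod_cast h3
    obtain ⟨c, hc⟩ : (Nat.fib (t + 1) : ℤ) ∣ Nat.fib (2 * (t + 1)) := by
      exact_mod_cast Nat.fib_dvd (t + 1) (2 * (t + 1)) (Dvd.intro_left _ rfl)
    have h4 := cassini t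
    have h5 : ((-1 : ℤ) ^ t) ^ 2 = 1 := by
      rw [← pow_mul, mul_comm, pow_mul]
      norm_num
    obtain ⟨F, hF⟩ : ∃ F : ℤ, F = Nat.fib (t + 1) := ⟨_, rfl⟩
    obtain ⟨G, hG⟩ : ∃ G : ℤ, G = Nat.fib t := ⟨_, rfl⟩
    obtain ⟨E, hE⟩ : ∃ E : ℤ, E = (-1) ^ t := ⟨_, rfl⟩
    rw [h2, hc, h1, ← hF, ← hG]
    rw [← hF, ← hG, ← hE] at h4
    rw [← hE] at h5
    have h6 : G ^ 2 = F ^ 2 - F * G - E := by linarith
    rw [h6]
    refine ⟨F * c ^ 2 + (2 * F - G) * (F * (2 * F - G) - 2 * E), ?_⟩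
    linear_combination h5
  induction j with
  | zero => simpa using hone
  | succ j ih =>
    have h1 := Nat.fib_add (4 * (t + 1) * (j + 1) - 1) (4 * (t + 1) - 1)
    have h0 : 4 ≤ 4 * (t + 1) * (j + 1) := by nlinarith
    have e1 : 4 * (t + 1) * (j + 1) - 1 + (4 * (t + 1) - 1) + 1 = 4 * (t + 1) * (j + 1 + 1) - 1 := by
      have : 4 * (t + 1) * (j + 1 + 1) = 4 * (t + 1) * (j + 1) + 4 * (t + 1) := by ring
      omega
    have e2 : 4 * (t + 1) * (j + 1) - 1 + 1 = 4 * (t + 1) * (j + 1) := by omega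
    have e3 : 4 * (t + 1) - 1 + 1 = 4 * (t + 1) := by omega
    rw [e1, e2, e3] at h1
    have h2 : (Nat.fib (4 * (t + 1) * (j + 1 + 1) - 1) : ℤ) =
        Nat.fib (4 * (t + 1) * (j + 1) - 1) * Nat.fib (4 * (t + 1) - 1) +
          Nat.fib (4 * (t + 1) * (j + 1)) * Nat.fib (4 * (t + 1)) := by exact_mod_cast h1
    obtain ⟨c, hc⟩ := ih
    obtain ⟨c', hc'⟩ := hone
    obtain ⟨c'', hc''⟩ : (Nat.fib (t + 1) : ℤ) ∣ Nat.fib (4 * (t + 1)) := by
      exact_mod_cast Nat.fib_dvd (t + 1) (4 * (t + 1)) (Dvd.intro_left _ rfl)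
    have a1 : (Nat.fib (4 * (t + 1) * (j + 1) - 1) : ℤ) = 1 + Nat.fib (t + 1) * c := by linarith
    have a2 : (Nat.fib (4 * (t + 1) - 1) : ℤ) = 1 + Nat.fib (t + 1) * c' := by linarith
    rw [h2, a1, a2, hc'']
    exact ⟨c + c' + Nat.fib (t + 1) * c * c' + Nat.fib (4 * (t + 1) * (j + 1)) * c'', by ring⟩

lemma fib_le_pow (k : ℕ) : (Nat.fib k : ℝ) ≤ goldenRatio ^ k := by
  induction k using Nat.twoStepInduction with
  | zero => simp
  | one => simpa using one_lt_goldenRatio.le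
  | more k h1 h2 =>
    have h3 : (Nat.fib (k + 2) : ℝ) = Nat.fib k + Nat.fib (k + 1) := by
      exact_mod_cast Nat.fib_add_two
    have h4 : goldenRatio ^ (k + 2) = goldenRatio ^ k + goldenRatio ^ (k + 1) := by
      rw [pow_add, goldenRatio_sq, pow_succ]
      ring
    rw [h3, h4]
    linarith

/-- the even powers of the conjugate -/
lemma conj_pow (N : ℕ) (hN : 1 ≤ N) :
    goldenConj * Nat.fib N + Nat.fib (N - 1) = goldenConj ^ N := by
  obtain ⟨M, rfl⟩ : ∃ M, N = M + 1 := ⟨N - 1, by omega⟩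
  simpa using goldenConj_mul_fib_succ_add_fib M

lemma conj_even (N : ℕ) : goldenConj ^ (4 * N) = (goldenRatio ^ (4 * N))⁻¹ := by
  have h : goldenConj = -(goldenRatio⁻¹) := by rw [inv_goldenRatio, neg_neg]
  rw [h, pow_mul, pow_mul, ← inv_pow, ← inv_pow]
  congr 1
  ring

/-- Binet's formulas in the field -/
lemma fib_field (N : ℕ) : (2 * ph - 1) * (Nat.fib (4 * N) : Kf) =
    ph ^ (4 * N) - (ph ^ (4 * N))⁻¹ := by
  apply s1.injective
  simp only [map_mul, map_sub, map_one, map_ofNat, s1_ph, map_natCast, map_pow, map_inv₀]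
  rw [← conj_even, coe_fib_eq]
  have h5 : (2 : ℝ) * goldenRatio - 1 = √5 := by
    rw [← goldenRatio_sub_goldenConj]
    linarith [goldenRatio_add_goldenConj]
  rw [h5]
  have : √5 ≠ 0 := by positivity
  field_simp

lemma fib_field' (N : ℕ) (hN : 1 ≤ N) : (2 * ph - 1) * (Nat.fib (4 * N - 1) : Kf) =
    (ph - 1) * ph ^ (4 * N) + ph * (ph ^ (4 * N))⁻¹ := by
  apply s1.injective
  simp only [map_mul, map_sub, map_one, map_ofNat, s1_ph, map_natCast, map_pow, map_inv₀, map_add]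
  rw [← conj_even, coe_fib_eq]
  have h5 : (2 : ℝ) * goldenRatio - 1 = √5 := by
    rw [← goldenRatio_sub_goldenConj]
    linarith [goldenRatio_add_goldenConj]
  rw [h5]
  obtain ⟨M, hM⟩ : ∃ M, 4 * N = M + 1 := ⟨4 * N - 1, by omega⟩
  rw [hM, Nat.add_sub_cancel]
  have key : ∀ a c r : ℝ, a * c = -1 → a ^ 2 = a + 1 → r ≠ 0 →
      r * ((a ^ M - c ^ M) / r) = (a - 1) * a ^ (M + 1) + a * c ^ (M + 1) := by
    intro a c r h1 h2 h3
    rw [mul_div_cancel₀ _ h3, pow_succ, pow_succ]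
    linear_combination -a ^ M * h2 - c ^ M * h1
  exact key _ _ _ goldenRatio_mul_goldenConj goldenRatio_sq (by positivity)

end Pool.Agent.J4.H52.FS
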