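import Mathlib
import Pool.Agent.J4.H52.FS.Field
import Pool.Agent.NH29.GN.Mue
import Pool.Agent.NH29.GN.Mov
import Pool.Agent.NH29.GN.MovS
import Pool.Agent.NH29.GN.MovD
import Pool.Agent.NH29.GN.Hn
import Pool.Agent.NH29.GN.Gal

/-!
# Independence of the powers of the golden ratio over sums of almost units
-/

set_option autoImplicit false

namespace Pool.Agent.J4.H52.FS

open Filter Height Real
open Pool.Agent.NH29.GN (SmN MueStm)

/-- the unit equation with small coefficients -/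
theorem mue' : MueStm :=
  Pool.Agent.NH29.GN.mue (Pool.Agent.NH29.GN.mov (Pool.Agent.NH29.GN.movs
    Pool.Agent.NH29.GN.gal) Pool.Agent.NH29.GN.movd) Pool.Agent.NH29.GN.hn

/-- small sequences -/
def Sm (𝒰 : Ultrafilter ℕ) (f : ℕ → Kf) : Prop := SmN 𝒰 (fun n : ℕ => (n : ℝ)) f

section

variable {𝒰 : Ultrafilter ℕ}

lemma hH (h𝒰 : (𝒰 : Filter ℕ) ≤ atTop) (B : ℝ) : ∀ᶠ s : ℕ in (𝒰 : Filter ℕ), B ≤ (s : ℝ) :=
  h𝒰 ((tendsto_natCast_atTop_atTop (R := ℝ)).eventually_ge_atTop B)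

lemma Sm.of_le (h𝒰 : (𝒰 : Filter ℕ) ≤ atTop) {f : ℕ → Kf} {g : ℕ → Kf} (C : ℝ)
    (hg : Sm 𝒰 g) (h : ∀ᶠ n in (𝒰 : Filter ℕ), logHeight₁ (f n) ≤ C + logHeight₁ (g n)) :
    Sm 𝒰 f := by
  intro N
  filter_upwards [hg (2 * N), h, hH h𝒰 (2 * N * C)] with n h1 h2 h3
  push_cast at h1
  have h4 : (N : ℝ) * logHeight₁ (f n) ≤ N * (C + logHeight₁ (g n)) :=
    mul_le_mul_of_nonneg_left h2 (Nat.cast_nonneg N)
  nlinarith

lemma Sm.const (h𝒰 : (𝒰 : Filter ℕ) ≤ atTop) (c : Kf) : Sm 𝒰 fun _ => c := by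
  intro N
  exact hH h𝒰 _

lemma Sm.mul {f g : ℕ → Kf} (hf : Sm 𝒰 f) (hg : Sm 𝒰 g) : Sm 𝒰 fun n => f n * g n := by
  intro N
  filter_upwards [hf (2 * N), hg (2 * N)] with n h1 h2
  push_cast at h1 h2
  have h3 := mul_le_mul_of_nonneg_left (logHeight₁_mul_le (f n) (g n)) (Nat.cast_nonneg (α := ℝ) N)
  nlinarith

lemma Sm.inv {f : ℕ → Kf} (hf : Sm 𝒰 f) : Sm 𝒰 fun n => (f n)⁻¹ := by
  intro N
  filter_upwards [hf N] with n h1
  rwa [logHeight₁_inv]

lemma Sm.add (h𝒰 : (𝒰 : Filter ℕ) ≤ atTop) {f g : ℕ → Kf} (hf : Sm 𝒰 f) (hg : Sm 𝒰 g) :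
    Sm 𝒰 fun n => f n + g n := by
  intro N
  filter_upwards [hf (3 * N), hg (3 * N), hH h𝒰 (3 * N * (totalWeight Kf * Real.log 2))]
    with n h1 h2 h3
  push_cast at h1 h2
  have h4 := mul_le_mul_of_nonneg_left (logHeight₁_add_le (f n) (g n))
    (Nat.cast_nonneg (α := ℝ) N)
  nlinarith

lemma Sm.sum (h𝒰 : (𝒰 : Filter ℕ) ≤ atTop) {ι : Type} (t : Finset ι) {f : ι → ℕ → Kf}
    (hf : ∀ i ∈ t, Sm 𝒰 (f i)) : Sm 𝒰 fun n => ∑ i ∈ t, f i n := by
  classical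
  induction t using Finset.induction_on with
  | empty => simpa using Sm.const h𝒰 0
  | insert a t ha ih =>
    have : (fun n => ∑ i ∈ insert a t, f i n) = fun n => f a n + ∑ i ∈ t, f i n := by
      funext n
      rw [Finset.sum_insert ha]
    rw [this]
    exact (hf a (Finset.mem_insert_self _ _)).add h𝒰
      (ih fun i hi => hf i (Finset.mem_insert_of_mem hi))

lemma Sm.prod (h𝒰 : (𝒰 : Filter ℕ) ≤ atTop) {ι : Type} (t : Finset ι) {f : ι → ℕ → Kf}
    (hf : ∀ i ∈ t, Sm 𝒰 (f i)) : Sm 𝒰 fun n => ∏ i ∈ t, f i n := by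
  classical
  induction t using Finset.induction_on with
  | empty => simpa using Sm.const h𝒰 1
  | insert a t ha ih =>
    have : (fun n => ∏ i ∈ insert a t, f i n) = fun n => f a n * ∏ i ∈ t, f i n := by
      funext n
      rw [Finset.prod_insert ha]
    rw [this]
    exact (hf a (Finset.mem_insert_self _ _)).mul
      (ih fun i hi => hf i (Finset.mem_insert_of_mem hi))

lemma Sm.pow (h𝒰 : (𝒰 : Filter ℕ) ≤ atTop) {f : ℕ → Kf} (hf : Sm 𝒰 f) (a : ℕ) :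
    Sm 𝒰 fun n => f n ^ a := by
  induction a with
  | zero => simpa using Sm.const h𝒰 1
  | succ a ih =>
    simp only [pow_succ]
    exact ih.mul hf

end

/-- the height of a power of the golden ratio times a rational number -/
lemma height_ph (q : ℚ) (hq : q ≠ 0) (e : ℤ) :
    |(e : ℝ)| * Real.log goldenRatio ≤ logHeight₁ ((q : Kf) * ph ^ e) := by
  have hqR : (q : ℝ) ≠ 0 := by exact_mod_cast hq
  have h1 : s1 ((q : Kf) * ph ^ e) = q * goldenRatio ^ e := by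
    rw [map_mul, map_zpow₀, s1_ph, map_ratCast]
  have h2 : s2 ((q : Kf) * ph ^ e) = q * goldenConj ^ e := by
    rw [map_mul, map_zpow₀, s2_ph, map_ratCast]
  have hc : |goldenConj| = goldenRatio⁻¹ := by
    rw [inv_goldenRatio, abs_of_neg goldenConj_neg]
  have e1 : Real.log |s1 ((q : Kf) * ph ^ e)| = Real.log |(q : ℝ)| + e * Real.log goldenRatio := by
    rw [h1, abs_mul, Real.log_mul (abs_ne_zero.2 hqR) (abs_ne_zero.2
      (zpow_ne_zero _ goldenRatio_pos.ne')), abs_zpow, abs_of_pos goldenRatio_pos, Real.log_zpow]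
  have e2 : Real.log |s2 ((q : Kf) * ph ^ e)| = Real.log |(q : ℝ)| - e * Real.log goldenRatio := by
    rw [h2, abs_mul, Real.log_mul (abs_ne_zero.2 hqR) (abs_ne_zero.2
      (zpow_ne_zero _ goldenConj_neg.ne)), abs_zpow, hc, Real.log_zpow, Real.log_inv]
    ring
  have hinv : ∀ s : Kf →+* ℝ, -Real.log |s ((q : Kf) * ph ^ e)| ≤ logHeight₁ ((q : Kf) * ph ^ e) := by
    intro s
    have := log_abs_le s ((q : Kf) * ph ^ e)⁻¹
    rw [logHeight₁_inv, map_inv₀, abs_inv, Real.log_inv] at this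
    exact this
  have a1 := log_abs_le s1 ((q : Kf) * ph ^ e)
  have a2 := log_abs_le s2 ((q : Kf) * ph ^ e)
  have a3 := hinv s1
  have a4 := hinv s2
  rw [e1] at a1 a3
  rw [e2] at a2 a4
  rcases abs_cases (e : ℝ) with ⟨h, -⟩ | ⟨h, -⟩
  · rw [h]; linarith
  · rw [h]; linarith

lemma not_small {𝒰 : Ultrafilter ℕ} (h𝒰 : (𝒰 : Filter ℕ) ≤ atTop) (q : ℕ → ℚ)
    (hq : ∀ n, q n ≠ 0) (e : ℤ) (he : e ≠ 0) :
    ¬ Sm 𝒰 fun n => (q n : Kf) * ph ^ (e * (4 * n : ℤ)) := by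
  intro h
  have hl : 0 < Real.log goldenRatio := Real.log_pos one_lt_goldenRatio
  obtain ⟨N, hN⟩ := exists_nat_gt (1 / Real.log goldenRatio)
  obtain ⟨n, h1, h2⟩ := ((h N).and (hH h𝒰 1)).exists
  have h3 := height_ph (q n) (hq n) (e * (4 * n : ℤ))
  have h4 : (1 : ℝ) ≤ |(e : ℝ)| := by
    rw [← Int.cast_abs]
    exact_mod_cast Int.one_le_abs he
  push_cast at h3
  rw [abs_mul, abs_of_nonneg (show (0 : ℝ) ≤ 4 * n by positivity)] at h3
  rw [div_lt_iff₀ hl] at hN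
  have h5 : (n : ℝ) * Real.log goldenRatio ≤
      logHeight₁ ((q n : Kf) * ph ^ (e * (4 * n : ℤ))) := by
    refine le_trans ?_ h3
    refine mul_le_mul_of_nonneg_right ?_ hl.le
    nlinarith
  have h6 : (N : ℝ) * ((n : ℝ) * Real.log goldenRatio) ≤ n :=
    (mul_le_mul_of_nonneg_left h5 (Nat.cast_nonneg N)).trans h1
  nlinarith

/-- the product of the coefficients -/
noncomputable def mm {k : ℕ} (m : Fin k → ℕ → ℤ) (μ : Fin k → ℕ) (n : ℕ) : Kf :=
  ∏ i, (m i n : Kf) ^ μ i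

/-- the product of the units -/
noncomputable def uu {k : ℕ} (u : Fin k → ℕ → ℕ) (μ : Fin k → ℕ) (n : ℕ) : Kf :=
  ∏ i, (u i n : Kf) ^ μ i

lemma uu_ne {k : ℕ} {u : Fin k → ℕ → ℕ} (hu0 : ∀ i n, u i n ≠ 0) (μ : Fin k → ℕ) (n : ℕ) :
    uu u μ n ≠ 0 :=
  Finset.prod_ne_zero_iff.2 fun i _ => pow_ne_zero _ (Nat.cast_ne_zero.2 (hu0 i n))

/-- the group generated by the golden ratio and the primes of `b` -/
noncomputable def Gam (b : ℕ) : Subgroup Kfˣ :=
  Subgroup.closure ((Units.mk0 ph ph_ne) ::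
    (b.primeFactorsList.attach.map fun p => Units.mk0 ((p.1 : ℕ) : Kf)
      (Nat.cast_ne_zero.2 (Nat.prime_of_mem_primeFactorsList p.2).ne_zero))).toFinset

lemma Gam_fg (b : ℕ) : (Gam b).FG := ⟨_, rfl⟩

lemma ph_mem (b : ℕ) : Units.mk0 ph ph_ne ∈ Gam b := by
  refine Subgroup.subset_closure ?_
  simp

lemma nat_mem (b : ℕ) (hb : b ≠ 0) (v : ℕ) (hv : v ≠ 0) (h : ∀ p, p.Prime → p ∣ v → p ∣ b) :
    Units.mk0 (v : Kf) (Nat.cast_ne_zero.2 hv) ∈ Gam b := by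
  induction v using Nat.recOnMul with
  | zero => exact absurd rfl hv
  | one =>
    have : Units.mk0 ((1 : ℕ) : Kf) (Nat.cast_ne_zero.2 hv) = 1 := by
      ext
      simp
    rw [this]
    exact one_mem _
  | prime p hp =>
    refine Subgroup.subset_closure ?_
    have hpb : p ∈ b.primeFactorsList := (Nat.mem_primeFactorsList hb).2 ⟨hp, h p hp dvd_rfl⟩
    rw [List.coe_toFinset, Set.mem_ofPred_eq, List.mem_cons]
    right
    rw [List.mem_map]
    exact ⟨⟨p, hpb⟩, List.mem_attach _ _, rfl⟩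
  | mul a c iha ihc =>
    have ha : a ≠ 0 := left_ne_zero_of_mul hv
    have hc : c ≠ 0 := right_ne_zero_of_mul hv
    have h1 := iha ha fun p hp hpa => h p hp (hpa.mul_right c)
    have h2 := ihc hc fun p hp hpc => h p hp (hpc.mul_left a)
    have : Units.mk0 ((a * c : ℕ) : Kf) (Nat.cast_ne_zero.2 hv) =
        Units.mk0 (a : Kf) (Nat.cast_ne_zero.2 ha) * Units.mk0 (c : Kf) (Nat.cast_ne_zero.2 hc) := by
      ext
      simp
    rw [this]
    exact mul_mem h1 h2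

/-- **Independence.** -/
theorem ind {k : ℕ} (b : ℕ) (hb : b ≠ 0) (𝒰 : Ultrafilter ℕ) (h𝒰 : (𝒰 : Filter ℕ) ≤ atTop)
    (m : Fin k → ℕ → ℤ) (u : Fin k → ℕ → ℕ) (hu0 : ∀ i n, u i n ≠ 0)
    (hub : ∀ i n p, p.Prime → p ∣ u i n → p ∣ b) (hm : ∀ i, Sm 𝒰 fun n => (m i n : Kf))
    {B : Type} [Fintype B] (e : B → Fin k → ℕ) {Y : Type} [Fintype Y] (ex : Y → ℤ)
    (hex : Function.Injective ex) (c : Y → B → Kf)
    (hrel : ∀ᶠ n : ℕ in (𝒰 : Filter ℕ),
      ∑ y, ∑ β, c y β * (mm m (e β) n * uu u (e β) n) * ph ^ (ex y * (4 * n : ℤ)) = 0) :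
    ∀ y, ∀ᶠ n in (𝒰 : Filter ℕ), ∑ β, c y β * (mm m (e β) n * uu u (e β) n) = 0 := by
  classical
  -- equivalence of exponents
  let st : Setoid (Fin k → ℕ) :=
    { r := fun μ ν => Sm 𝒰 fun n => uu u μ n / uu u ν n
      iseqv := by
        refine ⟨fun μ => ?_, fun {μ ν} h => ?_, fun {μ ν ρ} h1 h2 => ?_⟩
        · have : (fun n => uu u μ n / uu u μ n) = fun _ => (1 : Kf) := by
            funext n
            exact div_self (uu_ne hu0 μ n)
          rw [this]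
          exact Sm.const h𝒰 1
        · have : (fun n => uu u ν n / uu u μ n) = fun n => (uu u μ n / uu u ν n)⁻¹ := by
            funext n
            rw [inv_div]
          rw [this]
          exact h.inv
        · have : (fun n => uu u μ n / uu u ρ n) =
              fun n => (uu u μ n / uu u ν n) * (uu u ν n / uu u ρ n) := by
            funext n
            rw [div_mul_div_cancel₀ (uu_ne hu0 ν n)]
          rw [this]
          exact h1.mul h2 }
  obtain ⟨rep, hrep1, hrep2⟩ : ∃ rep : (Fin k → ℕ) → (Fin k → ℕ),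
      (∀ μ, Sm 𝒰 fun n => uu u μ n / uu u (rep μ) n) ∧
      (∀ μ ν, (Sm 𝒰 fun n => uu u (rep μ) n / uu u (rep ν) n) → rep μ = rep ν) := by
    refine ⟨fun μ => Quotient.out (Quotient.mk st μ), fun μ => ?_, fun μ ν h => ?_⟩
    · exact st.iseqv.symm (Quotient.mk_out (s := st) μ)
    · have h1 : Quotient.mk st (Quotient.out (Quotient.mk st μ)) =
          Quotient.mk st (Quotient.out (Quotient.mk st ν)) := Quotient.sound h
      rw [Quotient.out_eq, Quotient.out_eq] at h1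
      show Quotient.out (Quotient.mk st μ) = Quotient.out (Quotient.mk st ν)
      rw [h1]
  obtain ⟨R, hR⟩ : ∃ R : Finset (Fin k → ℕ), R = Finset.univ.image (fun β : B => rep (e β)) :=
    ⟨_, rfl⟩
  obtain ⟨G, hG⟩ : ∃ G : Y × {ρ // ρ ∈ R} → ℕ → Kf, G = fun p n =>
      ∑ β ∈ Finset.univ.filter (fun β => rep (e β) = p.2.1),
        c p.1 β * (mm m (e β) n * (uu u (e β) n / uu u (rep (e β)) n)) := ⟨_, rfl⟩
  have hGsm : ∀ p, Sm 𝒰 (G p) := by
    intro p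
    rw [hG]
    refine Sm.sum h𝒰 _ fun β _ => ?_
    refine (Sm.const h𝒰 _).mul (Sm.mul ?_ (hrep1 _))
    exact Sm.prod h𝒰 _ fun i _ => (hm i).pow h𝒰 _
  -- regrouping
  have hgrp : ∀ y n, ∑ β, c y β * (mm m (e β) n * uu u (e β) n) =
      ∑ ρ : {ρ // ρ ∈ R}, G (y, ρ) n * uu u ρ.1 n := by
    intro y n
    have h1 : ∑ ρ : {ρ // ρ ∈ R}, G (y, ρ) n * uu u ρ.1 n = ∑ ρ ∈ R,
        ∑ β ∈ Finset.univ.filter (fun β => rep (e β) = ρ),
          c y β * (mm m (e β) n * uu u (e β) n) := by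
      rw [← Finset.sum_coe_sort R]
      refine Finset.sum_congr rfl fun ρ _ => ?_
      rw [hG]
      dsimp only
      rw [Finset.sum_mul]
      refine Finset.sum_congr rfl fun β hβ => ?_
      rw [Finset.mem_filter] at hβ
      rw [hβ.2]
      have := uu_ne hu0 ρ.1 n
      field_simp
    rw [h1]
    symm
    refine Finset.sum_fiberwise_of_maps_to (fun β _ => ?_) _
    rw [hR]
    exact Finset.mem_image_of_mem _ (Finset.mem_univ β)
  have hrel2 : ∀ᶠ n : ℕ in (𝒰 : Filter ℕ),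
      ∑ p : Y × {ρ // ρ ∈ R}, G p n * (uu u p.2.1 n * ph ^ (ex p.1 * (4 * n : ℤ))) = 0 := by
    filter_upwards [hrel] with n hn
    rw [← hn, Fintype.sum_prod_type]
    refine Finset.sum_congr rfl fun y _ => ?_
    rw [← Finset.sum_mul, hgrp, Finset.sum_mul]
    refine Finset.sum_congr rfl fun ρ _ => ?_
    ring
  -- all coefficients vanish
  have hzero : ∀ p, ∀ᶠ n in (𝒰 : Filter ℕ), G p n = 0 := by
    by_contra hcon
    push Not at hcon
    obtain ⟨p0, hp0⟩ := hcon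
    have hp0' : ∀ᶠ n in (𝒰 : Filter ℕ), G p0 n ≠ 0 := hp0
    let J := {p : Y × {ρ // ρ ∈ R} // ∀ᶠ n in (𝒰 : Filter ℕ), G p n ≠ 0}
    have hJne : Nonempty J := ⟨⟨p0, hp0'⟩⟩
    have hprime : ∀ (ρ : Fin k → ℕ) (n : ℕ) p, p.Prime → p ∣ ∏ i, u i n ^ ρ i → p ∣ b := by
      intro ρ n p hp h
      obtain ⟨i, -, hi⟩ := (Prime.dvd_finsetProd_iff hp.prime _).1 h
      exact hub i n p hp (hp.dvd_of_dvd_pow hi)
    have hprod0 : ∀ (ρ : Fin k → ℕ) (n : ℕ), ∏ i, u i n ^ ρ i ≠ 0 := fun ρ n =>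
      Finset.prod_ne_zero_iff.2 fun i _ => pow_ne_zero _ (hu0 i n)
    have huucast : ∀ (ρ : Fin k → ℕ) (n : ℕ), ((∏ i, u i n ^ ρ i : ℕ) : Kf) = uu u ρ n := by
      intro ρ n
      unfold uu
      push_cast
      rfl
    obtain ⟨w, hw⟩ : ∃ w : J → ℕ → Kfˣ, w = fun (p : J) (n : ℕ) =>
        Units.mk0 ((∏ i, u i n ^ p.1.2.1 i : ℕ) : Kf) (Nat.cast_ne_zero.2 (hprod0 _ n)) *
          (Units.mk0 ph ph_ne) ^ (ex p.1.1 * (4 * n : ℤ)) := ⟨_, rfl⟩
    have hwv : ∀ p n, ((w p n : Kfˣ) : Kf) = uu u p.1.2.1 n * ph ^ (ex p.1.1 * (4 * n : ℤ)) := by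
      intro p n
      rw [hw]
      simp only [Units.val_mul, Units.val_mk0, Units.val_zpow_eq_zpow_val]
      rw [huucast]
    obtain ⟨p, p', hne, hsm⟩ := mue' Kf (Gam b) (Gam_fg b) 𝒰 (fun n : ℕ => (n : ℝ)) (hH h𝒰) J w
      (fun p n => G p.1 n)
      (by
        intro p n
        rw [hw]
        exact mul_mem (nat_mem b hb _ (hprod0 _ n) (hprime _ n)) (zpow_mem (ph_mem b) _))
      (fun p => p.2) (fun p => hGsm p.1)
      (by
        have hrest : ∀ᶠ n in (𝒰 : Filter ℕ), ∀ p : Y × {ρ // ρ ∈ R},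
            (¬ ∀ᶠ n in (𝒰 : Filter ℕ), G p n ≠ 0) → G p n = 0 := by
          rw [eventually_all]
          intro p
          by_cases h : ∀ᶠ n in (𝒰 : Filter ℕ), G p n ≠ 0
          · exact Eventually.of_forall fun n h' => absurd h h'
          · have h2 : ∀ᶠ n in (𝒰 : Filter ℕ), ¬ (G p n ≠ 0) := Ultrafilter.eventually_not.2 h
            filter_upwards [h2] with n hn _
            exact not_not.1 hn
        filter_upwards [hrel2, hrest] with n h1 h2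
        obtain ⟨f, hf⟩ : ∃ f : Y × {ρ // ρ ∈ R} → Kf, f = fun p =>
            G p n * (uu u p.2.1 n * ph ^ (ex p.1 * (4 * n : ℤ))) := ⟨_, rfl⟩
        have h1' : ∑ p, f p = 0 := by rw [hf]; exact h1
        have h3 : ∑ p : J, G p.1 n * ((w p n : Kfˣ) : Kf) = ∑ p : J, f p.1 :=
          Finset.sum_congr rfl fun p _ => by rw [hwv, hf]
        have h5 := Fintype.sum_subtype_add_sum_subtype
          (fun p : Y × {ρ // ρ ∈ R} => ∀ᶠ n in (𝒰 : Filter ℕ), G p n ≠ 0) f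
        have h4 : ∑ p : {p : Y × {ρ // ρ ∈ R} // ¬ ∀ᶠ n in (𝒰 : Filter ℕ), G p n ≠ 0}, f p.1
            = 0 :=
          Finset.sum_eq_zero fun p _ => by rw [hf]; dsimp only; rw [h2 p.1 p.2, zero_mul]
        rw [h4, add_zero, h1'] at h5
        rw [h3]
        exact h5)
    have hratio : (fun n => ((w p n : Kfˣ) : Kf) / ((w p' n : Kfˣ) : Kf)) = fun n =>
        (uu u p.1.2.1 n / uu u p'.1.2.1 n) * ph ^ ((ex p.1.1 - ex p'.1.1) * (4 * n : ℤ)) := by
      funext n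
      rw [hwv, hwv, sub_mul, zpow_sub₀ ph_ne]
      rw [mul_div_mul_comm]
    rw [hratio] at hsm
    by_cases hy : ex p.1.1 = ex p'.1.1
    · have hy' : p.1.1 = p'.1.1 := hex hy
      have h1 : Sm 𝒰 fun n => uu u p.1.2.1 n / uu u p'.1.2.1 n := by
        have : (fun n : ℕ => (uu u p.1.2.1 n / uu u p'.1.2.1 n) *
            ph ^ ((ex p.1.1 - ex p'.1.1) * (4 * n : ℤ))) =
            fun n => uu u p.1.2.1 n / uu u p'.1.2.1 n := by
          funext n
          rw [hy, sub_self, zero_mul, zpow_zero, mul_one]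
        rw [this] at hsm
        exact hsm
      have h2 : p.1.2.1 = p'.1.2.1 := by
        have hRm : ∀ ρ, ρ ∈ R → ∃ β, rep (e β) = ρ := by
          intro ρ hρ
          rw [hR, Finset.mem_image] at hρ
          obtain ⟨β, -, hβ⟩ := hρ
          exact ⟨β, hβ⟩
        obtain ⟨β, hβ⟩ := hRm _ p.1.2.2
        obtain ⟨β', hβ'⟩ := hRm _ p'.1.2.2
        rw [← hβ, ← hβ'] at h1 ⊢
        exact hrep2 _ _ h1
      exact hne (Subtype.ext (Prod.ext hy' (Subtype.ext h2)))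
    · refine not_small h𝒰 (fun n => ((∏ i, u i n ^ p.1.2.1 i : ℕ) : ℚ) /
        ((∏ i, u i n ^ p'.1.2.1 i : ℕ) : ℚ)) (fun n => ?_) (ex p.1.1 - ex p'.1.1)
        (sub_ne_zero.2 hy) ?_
      · exact div_ne_zero (Nat.cast_ne_zero.2 (hprod0 _ n)) (Nat.cast_ne_zero.2 (hprod0 _ n))
      · have : (fun n : ℕ => (((((∏ i, u i n ^ p.1.2.1 i : ℕ) : ℚ) /
            ((∏ i, u i n ^ p'.1.2.1 i : ℕ) : ℚ) : ℚ)) : Kf) *
            ph ^ ((ex p.1.1 - ex p'.1.1) * (4 * n : ℤ))) =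
            fun n => (uu u p.1.2.1 n / uu u p'.1.2.1 n) *
              ph ^ ((ex p.1.1 - ex p'.1.1) * (4 * n : ℤ)) := by
          funext n
          rw [← huucast, ← huucast, Rat.cast_div, Rat.cast_natCast, Rat.cast_natCast]
        rw [this]
        exact hsm
  intro y
  have hall : ∀ᶠ n in (𝒰 : Filter ℕ), ∀ ρ : {ρ // ρ ∈ R}, G (y, ρ) n = 0 := by
    rw [eventually_all]
    exact fun ρ => hzero (y, ρ)
  filter_upwards [hall] with n hn
  rw [hgrp]
  exact Finset.sum_eq_zero fun ρ _ => by rw [hn ρ, zero_mul]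

end Pool.Agent.J4.H52.FS
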