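import Mathlib
import Pool.Agent.J4.H52.FS.Ind
import Pool.Agent.J4.H52.FS.Fib
import Pool.Agent.J4.H52.FS.Dim

/-!
# The coordinates are linearly independent
-/

set_option autoImplicit false

namespace Pool.Agent.J4.H52.FS

open Filter Real

/-- the integer monomials -/
def xz {k : ℕ} (m : Fin k → ℕ → ℤ) (u : Fin k → ℕ → ℕ) (μ : Fin k → ℕ) (n : ℕ) : ℤ :=
  ∏ i, (m i n * u i n) ^ μ i

/-- the rational sequences -/
def xr {k : ℕ} (m : Fin k → ℕ → ℤ) (u : Fin k → ℕ → ℕ) (i : Fin k) (n : ℕ) : ℚ :=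
  ((m i n * u i n : ℤ) : ℚ)

lemma xq_eq {k : ℕ} (m : Fin k → ℕ → ℤ) (u : Fin k → ℕ → ℕ) (μ : Fin k → ℕ) (n : ℕ) :
    xq (xr m u) μ n = (xz m u μ n : ℚ) := by
  unfold xq xr xz
  push_cast
  rfl

lemma mu_eq {k : ℕ} (m : Fin k → ℕ → ℤ) (u : Fin k → ℕ → ℕ) (μ : Fin k → ℕ) (n : ℕ) :
    mm m μ n * uu u μ n = ((xz m u μ n : ℤ) : Kf) := by
  unfold mm uu xz
  rw [← Finset.prod_mul_distrib]
  push_cast
  refine Finset.prod_congr rfl fun i _ => ?_
  rw [mul_pow]

/-- integers `a`, `c` with `a + c φ = 0` vanish -/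
lemma irr_zero {a c : ℤ} (h : (a : Kf) + c * ph = 0) : a = 0 ∧ c = 0 := by
  have h1 := congrArg s1 h
  rw [map_add, map_mul, map_intCast, map_intCast, s1_ph, map_zero] at h1
  have hc : c = 0 := by
    by_contra hc
    have hcR : (c : ℝ) ≠ 0 := by exact_mod_cast hc
    apply goldenRatio_irrational
    refine ⟨-(a : ℚ) / c, ?_⟩
    push_cast
    rw [div_eq_iff hcR]
    linarith
  rw [hc] at h1
  simp at h1
  exact ⟨h1, hc⟩

lemma two_ph_ne : (2 * ph - 1 : Kf) ≠ 0 := by
  intro h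
  have h1 : ((-1 : ℤ) : Kf) + (2 : ℤ) * ph = 0 := by
    push_cast
    linear_combination h
  have := (irr_zero h1).1
  omega

/-- the exponents of the golden ratio -/
def exq {J : ℕ} : Option (Fin J × Bool) → ℤ
  | none => 0
  | some (j, true) => (j : ℤ) + 1
  | some (j, false) => -((j : ℤ) + 1)

lemma exq_inj {J : ℕ} : Function.Injective (exq (J := J)) := by
  intro a c h
  rcases a with _ | ⟨j, _ | _⟩ <;> rcases c with _ | ⟨j', _ | _⟩ <;>
    simp only [exq] at h <;> first | rfl | (exfalso; omega) | skip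
  · have : j = j' := by
      apply Fin.ext
      omega
    rw [this]
  · have : j = j' := by
      apply Fin.ext
      omega
    rw [this]

/-- no relation -/
theorem no_rel {k : ℕ} (b : ℕ) (hb : b ≠ 0) (𝒰 : Ultrafilter ℕ) (h𝒰 : (𝒰 : Filter ℕ) ≤ atTop)
    (m : Fin k → ℕ → ℤ) (u : Fin k → ℕ → ℕ) (hu0 : ∀ i n, u i n ≠ 0)
    (hub : ∀ i n p, p.Prime → p ∣ u i n → p ∣ b) (hm : ∀ i, Sm 𝒰 fun n => (m i n : Kf))
    (hD : ∀ᶠ n in (𝒰 : Filter ℕ), ∑ i, m i n * (u i n : ℤ) ≠ 0)
    {B B' : Type} [Fintype B] [Fintype B'] (e : B → Fin k → ℕ) (e' : B' → Fin k → ℕ)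
    (l : B' → B → ℚ)
    (hi : ∀ p : B → ℚ, (∀ᶠ n in (𝒰 : Filter ℕ), ∑ β, p β * xq (xr m u) (e β) n = 0) → p = 0)
    (hi' : ∀ p : B' → ℚ, (∀ᶠ n in (𝒰 : Filter ℕ), ∑ β, p β * xq (xr m u) (e' β) n = 0) → p = 0)
    (hl : ∀ β', ∀ᶠ n in (𝒰 : Filter ℕ), (∑ i, xr m u i n) * xq (xr m u) (e' β') n =
      ∑ β, l β' β * xq (xr m u) (e β) n)
    (J : ℕ) (p q : B → Fin J → ℤ) (r : B' → ℤ)
    (hrel : ∀ᶠ n : ℕ in (𝒰 : Filter ℕ), ∑ β, ∑ j : Fin J, (p β j * (xz m u (e β) n *
      Nat.fib (4 * n * (j + 1))) + q β j * (xz m u (e β) n * (Nat.fib (4 * n * (j + 1) - 1) - 1)))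
      + ∑ β, r β * (xz m u (e' β) n * ∑ i, m i n * (u i n : ℤ)) = 0) :
    p = 0 ∧ q = 0 ∧ r = 0 := by
  classical
  obtain ⟨c, hc⟩ : ∃ c : Option (Fin J × Bool) → B → Kf, c = fun y β => match y with
    | none => (2 * ph - 1) * (-(∑ j, (q β j : Kf)) + ∑ β', (r β' : Kf) * ((l β' β : ℚ) : Kf))
    | some (j, true) => (p β j : Kf) + q β j * (ph - 1)
    | some (j, false) => -(p β j : Kf) + q β j * ph := ⟨_, rfl⟩
  have hall := eventually_all.2 hl
  have h1 := ind b hb 𝒰 h𝒰 m u hu0 hub hm e (exq (J := J)) exq_inj c (by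
    filter_upwards [hrel, hall, h𝒰 (eventually_ge_atTop 1)] with n h1 h2 hn1
    -- the identity in the field
    have h3 : (∑ β, ∑ j : Fin J, ((p β j : Kf) * ((xz m u (e β) n : ℤ) *
        (Nat.fib (4 * n * (j + 1)) : Kf)) + q β j * ((xz m u (e β) n : ℤ) *
        ((Nat.fib (4 * n * (j + 1) - 1) : Kf) - 1)))
        + ∑ β, (r β : Kf) * ((xz m u (e' β) n : ℤ) * ((∑ i, m i n * (u i n : ℤ) : ℤ) : Kf))) = 0 := by
      have h4 := congrArg (Int.cast : ℤ → Kf) h1
      push_cast at h4 ⊢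
      exact h4
    have h5 : ∀ β', ((xz m u (e' β') n : ℤ) : Kf) * ((∑ i, m i n * (u i n : ℤ) : ℤ) : Kf) =
        ∑ β, ((l β' β : ℚ) : Kf) * ((xz m u (e β) n : ℤ) : Kf) := by
      intro β'
      have h6 := congrArg (Rat.cast : ℚ → Kf) (h2 β')
      simp only [xq_eq] at h6
      unfold xr at h6
      push_cast at h6 ⊢
      rw [mul_comm]
      exact h6
    have hterm : ∀ (β : B) (j : Fin J), (2 * ph - 1) * ((p β j : Kf) * ((xz m u (e β) n : ℤ) *
        (Nat.fib (4 * n * (j + 1)) : Kf)) + q β j * ((xz m u (e β) n : ℤ) *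
        ((Nat.fib (4 * n * (j + 1) - 1) : Kf) - 1))) =
        ((p β j : Kf) + q β j * (ph - 1)) * (xz m u (e β) n : ℤ) * ph ^ (((j : ℤ) + 1) * (4 * n : ℤ)) +
        (-(p β j : Kf) + q β j * ph) * (xz m u (e β) n : ℤ) * ph ^ (-((j : ℤ) + 1) * (4 * n : ℤ)) +
        (2 * ph - 1) * (-(q β j : Kf)) * (xz m u (e β) n : ℤ) := by
      intro β j
      have e1 := fib_field (n * (j + 1))
      have e2 := fib_field' (n * (j + 1)) (by nlinarith)
      have e3 : 4 * (n * ((j : ℕ) + 1)) = 4 * n * (j + 1) := by ring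
      rw [e3] at e1 e2
      have e4 : ph ^ (((j : ℤ) + 1) * (4 * n : ℤ)) = ph ^ (4 * n * ((j : ℕ) + 1)) := by
        rw [← zpow_natCast]
        congr 1
        push_cast
        ring
      have e5 : ph ^ (-((j : ℤ) + 1) * (4 * n : ℤ)) = (ph ^ (4 * n * ((j : ℕ) + 1)))⁻¹ := by
        rw [← zpow_natCast, ← zpow_neg]
        congr 1
        push_cast
        ring
      rw [e4, e5]
      linear_combination (p β j : Kf) * (xz m u (e β) n : ℤ) * e1 +
        (q β j : Kf) * (xz m u (e β) n : ℤ) * e2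
    -- the sum over the exponents
    have hgoal : ∑ y : Option (Fin J × Bool), ∑ β, c y β * (mm m (e β) n * uu u (e β) n) *
        ph ^ (exq y * (4 * n : ℤ)) = (2 * ph - 1) * (∑ β, ∑ j : Fin J, ((p β j : Kf) *
        ((xz m u (e β) n : ℤ) * (Nat.fib (4 * n * (j + 1)) : Kf)) + q β j * ((xz m u (e β) n : ℤ) *
        ((Nat.fib (4 * n * (j + 1) - 1) : Kf) - 1)))
        + ∑ β, (r β : Kf) * ((xz m u (e' β) n : ℤ) * ((∑ i, m i n * (u i n : ℤ) : ℤ) : Kf))) := by
      rw [mul_add, Finset.mul_sum]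
      rw [Fintype.sum_option, Fintype.sum_prod_type]
      simp only [Fintype.sum_bool, hc, exq, mu_eq, zero_mul, zpow_zero, mul_one]
      have h7 : (2 * ph - 1) * ∑ β, (r β : Kf) * ((xz m u (e' β) n : ℤ) *
          ((∑ i, m i n * (u i n : ℤ) : ℤ) : Kf)) =
          ∑ β, (2 * ph - 1) * (∑ β', (r β' : Kf) * ((l β' β : ℚ) : Kf)) *
            ((xz m u (e β) n : ℤ) : Kf) := by
        have h8 : ∀ β', (r β' : Kf) * ((xz m u (e' β') n : ℤ) *
            ((∑ i, m i n * (u i n : ℤ) : ℤ) : Kf)) =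
            ∑ β, (r β' : Kf) * ((l β' β : ℚ) : Kf) * ((xz m u (e β) n : ℤ) : Kf) := by
          intro β'
          rw [h5, Finset.mul_sum]
          refine Finset.sum_congr rfl fun β _ => ?_
          ring
        rw [Finset.sum_congr rfl fun β' _ => h8 β', Finset.sum_comm, Finset.mul_sum]
        refine Finset.sum_congr rfl fun β _ => ?_
        rw [mul_assoc, Finset.sum_mul]
      rw [h7]
      have h9 : ∀ β, (2 * ph - 1) * ∑ j : Fin J, ((p β j : Kf) *
          ((xz m u (e β) n : ℤ) * (Nat.fib (4 * n * (j + 1)) : Kf)) + q β j * ((xz m u (e β) n : ℤ) *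
          ((Nat.fib (4 * n * (j + 1) - 1) : Kf) - 1))) =
          ∑ j : Fin J, (((p β j : Kf) + q β j * (ph - 1)) * (xz m u (e β) n : ℤ) *
            ph ^ (((j : ℤ) + 1) * (4 * n : ℤ)) +
          (-(p β j : Kf) + q β j * ph) * (xz m u (e β) n : ℤ) *
            ph ^ (-((j : ℤ) + 1) * (4 * n : ℤ))) +
          (2 * ph - 1) * (-(∑ j, (q β j : Kf))) * (xz m u (e β) n : ℤ) := by
        intro β
        rw [Finset.mul_sum, Finset.sum_congr rfl fun j _ => hterm β j, Finset.sum_add_distrib]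
        congr 1
        rw [← Finset.sum_neg_distrib, Finset.mul_sum, Finset.sum_mul]
      have h10 : ∀ F : Fin J → B → Kf, ∑ j, ∑ β, F j β = ∑ β, ∑ j, F j β :=
        fun F => Finset.sum_comm
      rw [Finset.sum_congr rfl fun β _ => h9 β]
      simp only [← Finset.sum_add_distrib]
      rw [h10, ← Finset.sum_add_distrib]
      refine Finset.sum_congr rfl fun β _ => ?_
      ring
    rw [hgoal, h3, mul_zero])
  -- extracting the coefficients
  have hqp : ∀ j, (∀ β, q β j = 0) ∧ ∀ β, p β j = 0 := by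
    intro j
    have h2 := h1 (some (j, true))
    have h3 : ∀ᶠ n in (𝒰 : Filter ℕ), (∑ β, (p β j - q β j) * xz m u (e β) n = 0) ∧
        (∑ β, q β j * xz m u (e β) n = 0) := by
      filter_upwards [h2] with n hn
      apply irr_zero
      rw [← hn]
      push_cast
      rw [Finset.sum_mul, ← Finset.sum_add_distrib]
      refine Finset.sum_congr rfl fun β _ => ?_
      rw [mu_eq, hc]
      push_cast
      ring
    have h4 : (fun β => (q β j : ℚ)) = 0 := by
      apply hi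
      filter_upwards [h3] with n hn
      have := congrArg (Int.cast : ℤ → ℚ) hn.2
      push_cast at this
      rw [← this]
      refine Finset.sum_congr rfl fun β _ => ?_
      rw [xq_eq]
    have h5 : (fun β => ((p β j - q β j : ℤ) : ℚ)) = 0 := by
      apply hi
      filter_upwards [h3] with n hn
      have := congrArg (Int.cast : ℤ → ℚ) hn.1
      push_cast at this
      rw [← this]
      refine Finset.sum_congr rfl fun β _ => ?_
      rw [xq_eq]
      push_cast
      ring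
    have h6 : ∀ β, q β j = 0 := fun β => by
      have := congrFun h4 β
      simpa using this
    refine ⟨h6, fun β => ?_⟩
    have := congrFun h5 β
    rw [h6 β, sub_zero] at this
    simpa using this
  have hq : q = 0 := by
    funext β j
    exact (hqp j).1 β
  have hp : p = 0 := by
    funext β j
    exact (hqp j).2 β
  refine ⟨hp, hq, ?_⟩
  have h2 := h1 none
  have h3 : ∀ᶠ n in (𝒰 : Filter ℕ), ∑ β', (r β' : ℚ) * xq (xr m u) (e' β') n = 0 := by
    filter_upwards [h2, hall, hD] with n h4 h5 h6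
    have h7 : (∑ i, xr m u i n) ≠ 0 := by
      unfold xr
      rw [← Int.cast_sum]
      exact_mod_cast h6
    have h8 : ∑ β, (∑ β', (r β' : ℚ) * l β' β) * xq (xr m u) (e β) n = 0 := by
      have h9 : ((∑ β, (∑ β', (r β' : ℚ) * l β' β) * xq (xr m u) (e β) n : ℚ) : Kf) = 0 := by
        have h10 : (2 * ph - 1) * ((∑ β, (∑ β', (r β' : ℚ) * l β' β) * xq (xr m u) (e β) n : ℚ) : Kf)
            = 0 := by
          rw [← h4]
          push_cast
          rw [Finset.mul_sum]
          refine Finset.sum_congr rfl fun β _ => ?_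
          rw [mu_eq, hc, hq, xq_eq]
          simp
          ring
        exact (mul_eq_zero.1 h10).resolve_left two_ph_ne
      exact_mod_cast h9
    have h11 : (∑ i, xr m u i n) * ∑ β', (r β' : ℚ) * xq (xr m u) (e' β') n = 0 := by
      rw [← h8, Finset.mul_sum]
      have h12 : ∀ β', (∑ i, xr m u i n) * ((r β' : ℚ) * xq (xr m u) (e' β') n) =
          ∑ β, (r β' : ℚ) * l β' β * xq (xr m u) (e β) n := by
        intro β'
        rw [mul_left_comm, h5 β', Finset.mul_sum]
        refine Finset.sum_congr rfl fun β _ => ?_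
        ring
      rw [Finset.sum_congr rfl fun β' _ => h12 β', Finset.sum_comm]
      refine Finset.sum_congr rfl fun β _ => ?_
      rw [Finset.sum_mul]
    exact (mul_eq_zero.1 h11).resolve_left h7
  have h4 := hi' (fun β' => (r β' : ℚ)) h3
  funext β'
  have := congrFun h4 β'
  simpa using this

end Pool.Agent.J4.H52.FS
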