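import Mathlib
import Pool.Agent.R333.SubR

/-!
# The subspace theorem along an ultrafilter, for triangular systems of real algebraic forms
-/

set_option autoImplicit false

namespace Pool.Agent.J4.H52.FS

open Finset Filter Topology

/-- sorted enumeration of a finite type with a rank -/
lemma exists_enum {ι : Type} [Fintype ι] (rk : ι → ℕ) :
    ∃ e : Fin (Fintype.card ι) ≃ ι, ∀ i j, i < j → rk (e i) ≤ rk (e j) := by
  classical
  obtain ⟨e0⟩ : Nonempty (Fin (Fintype.card ι) ≃ ι) := ⟨(Fintype.equivFin ι).symm⟩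
  exact ⟨(Tuple.sort (rk ∘ e0)).trans e0, fun i j hij => Tuple.monotone_sort (rk ∘ e0) hij.le⟩

/-- the subspace theorem along an ultrafilter -/
theorem subU {ι : Type} [Fintype ι] [Nonempty ι] (rk : ι → ℕ) (b : ℕ) (hb : 2 ≤ b)
    (M : ι → ι → ℝ) (halg : ∀ i j, IsAlgebraic ℚ (M i j))
    (htri : ∀ i j, M i j ≠ 0 → i = j ∨ rk j < rk i) (hdiag : ∀ i, M i i ≠ 0)
    (𝒰 : Ultrafilter ℕ) (h𝒰 : (𝒰 : Filter ℕ) ≤ atTop)
    (x : ℕ → ι → ℤ) (hx : ∀ᶠ m in (𝒰 : Filter ℕ), x m ≠ 0)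
    (D : ℕ → ι → ℕ) (κ : ℕ) (hD : ∀ᶠ m in (𝒰 : Filter ℕ), ∀ l, D m l ∣ b ^ (κ * m))
    (hdiv : ∀ᶠ m in (𝒰 : Filter ℕ), ∀ l, (D m l : ℤ) ∣ x m l)
    (a : ι → ℝ) (C : ℝ) (hC : 0 < C)
    (hsmall : ∀ᶠ m : ℕ in (𝒰 : Filter ℕ), ∀ l, |∑ j, M l j * x m j| ≤ C * (b : ℝ) ^ (a l * m))
    (γ : ℝ) (hγ : 0 < γ)
    (hsum : ∀ᶠ m : ℕ in (𝒰 : Filter ℕ),
      (∑ l, a l + γ) * m * Real.log b ≤ ∑ l, Real.log (D m l)) :
    ∃ y : ι → ℤ, y ≠ 0 ∧ ∀ᶠ m in (𝒰 : Filter ℕ), ∑ l, y l * x m l = 0 := by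
  classical
  by_contra hcon
  have hne : ∀ y : ι → ℤ, y ≠ 0 → ∀ᶠ m in (𝒰 : Filter ℕ), ∑ l, y l * x m l ≠ 0 := by
    intro y hy
    by_contra h
    refine hcon ⟨y, hy, ?_⟩
    by_contra h2
    exact h (Ultrafilter.eventually_not.2 h2)
  -- the set of all good indices
  obtain ⟨G, hGdef⟩ : ∃ G : ℕ → Prop, G = fun m => x m ≠ 0 ∧ (∀ l, D m l ∣ b ^ (κ * m)) ∧
      (∀ l, (D m l : ℤ) ∣ x m l) ∧ (∀ l, |∑ j, M l j * x m j| ≤ C * (b : ℝ) ^ (a l * m)) ∧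
      (∑ l, a l + γ) * m * Real.log b ≤ ∑ l, Real.log (D m l) := ⟨_, rfl⟩
  have hG : ∀ᶠ m in (𝒰 : Filter ℕ), G m := by
    filter_upwards [hx, hD, hdiv, hsmall, hsum] with m h1 h2 h3 h4 h5
    rw [hGdef]
    exact ⟨h1, h2, h3, h4, h5⟩
  obtain ⟨𝓕, h𝓕⟩ : ∃ 𝓕 : Filter ℕ, 𝓕 = (⨅ y : {y : ι → ℤ // y ≠ 0},
      𝓟 {m | ∑ l, y.1 l * x m l ≠ 0}) ⊓ 𝓟 {m | G m} ⊓ atTop := ⟨_, rfl⟩
  have hle : (𝒰 : Filter ℕ) ≤ 𝓕 := by
    rw [h𝓕]
    refine le_inf (le_inf (le_iInf fun y => ?_) ?_) h𝒰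
    · rw [le_principal_iff]
      exact hne y.1 y.2
    · rw [le_principal_iff]
      exact hG
  have hNB : 𝓕.NeBot := neBot_of_le hle
  have hcg : 𝓕.IsCountablyGenerated := by
    rw [h𝓕]
    infer_instance
  obtain ⟨s, hs⟩ := Filter.exists_seq_tendsto 𝓕
  have hs1 : Tendsto s atTop atTop := hs.mono_right (by rw [h𝓕]; exact inf_le_right)
  have hs2 : ∀ᶠ i in atTop, G (s i) := by
    have : 𝓕 ≤ 𝓟 {m | G m} := by
      rw [h𝓕]
      exact inf_le_left.trans inf_le_right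
    exact tendsto_principal.1 (hs.mono_right this)
  have hs3 : ∀ y : ι → ℤ, y ≠ 0 → ∀ᶠ i in atTop, ∑ l, y l * x (s i) l ≠ 0 := by
    intro y hy
    have : 𝓕 ≤ 𝓟 {m | ∑ l, y l * x m l ≠ 0} := by
      rw [h𝓕]
      exact inf_le_left.trans (inf_le_left.trans (iInf_le (fun y : {y : ι → ℤ // y ≠ 0} =>
        𝓟 {m | ∑ l, y.1 l * x m l ≠ 0}) ⟨y, hy⟩))
    exact tendsto_principal.1 (hs.mono_right this)
  obtain ⟨e, he⟩ := exists_enum rk
  obtain ⟨P, hPdef⟩ : ∃ P : ℕ → Prop, P = fun m => G m ∧ ∃ i, s i = m := ⟨_, rfl⟩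
  have hP : ∃ᶠ m in atTop, P m := by
    rw [Filter.frequently_atTop]
    intro N
    obtain ⟨i, h1, h2⟩ := ((hs1.eventually_ge_atTop N).and hs2).exists
    exact ⟨s i, h1, by rw [hPdef]; exact ⟨h2, i, rfl⟩⟩
  have hPG : ∀ m, P m → G m := fun m hm => by rw [hPdef] at hm; exact hm.1
  have hGx : ∀ m, G m → x m ≠ 0 ∧ (∀ l, D m l ∣ b ^ (κ * m)) ∧
      (∀ l, (D m l : ℤ) ∣ x m l) ∧ (∀ l, |∑ j, M l j * x m j| ≤ C * (b : ℝ) ^ (a l * m)) ∧
      (∑ l, a l + γ) * m * Real.log b ≤ ∑ l, Real.log (D m l) := fun m hm => by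
    rw [hGdef] at hm; exact hm
  obtain ⟨y', hy', hfr⟩ := Pool.Agent.R333.SubR.sub_real (n := Fintype.card ι)
    (Fintype.card_pos) b hb (Matrix.of fun i j => M (e i) (e j))
    (fun i j => halg _ _)
    (by
      intro i j hij
      by_contra h
      rcases htri _ _ h with h1 | h1
      · exact hij.ne (e.injective h1)
      · exact absurd (he i j hij) (not_le.2 h1))
    (fun i => hdiag _) P hP (fun m i => x m (e i))
    (by
      intro m hm h0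
      refine (hGx m (hPG m hm)).1 ?_
      funext l
      have := congrFun h0 (e.symm l)
      simpa using this)
    (fun m i => D m (e i)) κ
    (fun m l hm => (hGx m (hPG m hm)).2.1 _)
    (fun m l hm => (hGx m (hPG m hm)).2.2.1 _)
    (fun i => a (e i)) C hC
    (by
      intro m l hm
      have h1 := (hGx m (hPG m hm)).2.2.2.1 (e l)
      have h2 : ∑ j, (Matrix.of fun i j => M (e i) (e j)) l j * ((x m (e j) : ℤ) : ℝ) =
          ∑ j, M (e l) j * (x m j : ℝ) :=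
        Equiv.sum_comp e (fun j => M (e l) j * (x m j : ℝ))
      rw [h2]
      exact h1)
    γ hγ
    (by
      intro m hm
      have h1 := (hGx m (hPG m hm)).2.2.2.2
      rw [Equiv.sum_comp e a, Equiv.sum_comp e (fun l => Real.log (D m l))]
      exact h1)
  obtain ⟨y, hydef⟩ : ∃ y : ι → ℤ, y = fun l => y' (e.symm l) := ⟨_, rfl⟩
  have hy : y ≠ 0 := by
    intro h
    refine hy' ?_
    funext i
    have := congrFun h (e i)
    rw [hydef] at this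
    simpa using this
  have hsumy : ∀ m, ∑ l, y' l * x m (e l) = ∑ l, y l * x m l := by
    intro m
    rw [← Equiv.sum_comp e (fun l => y l * x m l)]
    refine Finset.sum_congr rfl fun i _ => ?_
    rw [hydef]
    simp
  obtain ⟨I, hI⟩ := Filter.eventually_atTop.1 (hs3 y hy)
  -- the relation holds only at the first indices
  obtain ⟨B, hB⟩ : ∃ B, ∀ i, i < I → s i < B := by
    refine ⟨(Finset.range I).sup s + 1, fun i hi => ?_⟩
    have := Finset.le_sup (f := s) (Finset.mem_range.2 hi)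
    omega
  obtain ⟨m, hmB, hPm, hrel⟩ := Filter.frequently_atTop.1 hfr B
  rw [hPdef] at hPm
  obtain ⟨-, i, rfl⟩ := hPm
  rcases lt_or_ge i I with h | h
  · exact absurd (hB i h) (not_lt.2 hmB)
  · refine hI i h ?_
    rw [← hsumy]
    exact hrel

end Pool.Agent.J4.H52.FS
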