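import Mathlib
import Pool.Agent.J4.H52.FS.Ind
import Pool.Agent.J4.H52.FS.Fib

/-!
# Exponential growth rates along an ultrafilter
-/

set_option autoImplicit false

namespace Pool.Agent.J4.H52.FS

open Filter Height Real

/-- growth at most `exp (a n)` -/
def Up (𝒰 : Ultrafilter ℕ) (f : ℕ → ℝ) (a : ℝ) : Prop :=
  ∀ θ : ℝ, 0 < θ → ∀ᶠ n : ℕ in (𝒰 : Filter ℕ), |f n| ≤ Real.exp ((a + θ) * n)

/-- growth at least `exp (a n)` -/
def Lo (𝒰 : Ultrafilter ℕ) (f : ℕ → ℝ) (a : ℝ) : Prop :=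
  ∀ θ : ℝ, 0 < θ → ∀ᶠ n : ℕ in (𝒰 : Filter ℕ), Real.exp ((a - θ) * n) ≤ |f n|

section

variable {𝒰 : Ultrafilter ℕ}

lemma Up.mono {f : ℕ → ℝ} {a a' : ℝ} (h : Up 𝒰 f a) (ha : a ≤ a') : Up 𝒰 f a' := by
  intro θ hθ
  filter_upwards [h θ hθ] with n hn
  refine hn.trans (Real.exp_le_exp.2 ?_)
  have : (0 : ℝ) ≤ n := Nat.cast_nonneg n
  nlinarith

lemma Up.congr {f f' : ℕ → ℝ} {a : ℝ} (h : Up 𝒰 f a) (hf : ∀ᶠ n in (𝒰 : Filter ℕ), f' n = f n) :
    Up 𝒰 f' a := by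
  intro θ hθ
  filter_upwards [h θ hθ, hf] with n hn h2
  rwa [h2]

lemma Up.of_le {f : ℕ → ℝ} {a : ℝ}
    (h : ∀ᶠ n : ℕ in (𝒰 : Filter ℕ), |f n| ≤ Real.exp (a * n)) : Up 𝒰 f a := by
  intro θ hθ
  filter_upwards [h] with n hn
  refine hn.trans (Real.exp_le_exp.2 ?_)
  have : (0 : ℝ) ≤ n := Nat.cast_nonneg n
  nlinarith

lemma Up.mul {f g : ℕ → ℝ} {a c : ℝ} (hf : Up 𝒰 f a) (hg : Up 𝒰 g c) :
    Up 𝒰 (fun n => f n * g n) (a + c) := by
  intro θ hθ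
  filter_upwards [hf (θ / 2) (half_pos hθ), hg (θ / 2) (half_pos hθ)] with n h1 h2
  rw [abs_mul]
  refine (mul_le_mul h1 h2 (abs_nonneg _) (Real.exp_pos _).le).trans ?_
  rw [← Real.exp_add]
  refine Real.exp_le_exp.2 ?_
  linarith

lemma Up.div {f g : ℕ → ℝ} {a c : ℝ} (hf : Up 𝒰 f a) (hg : Lo 𝒰 g c) :
    Up 𝒰 (fun n => f n / g n) (a - c) := by
  intro θ hθ
  filter_upwards [hf (θ / 2) (half_pos hθ), hg (θ / 2) (half_pos hθ)] with n h1 h2
  rw [abs_div]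
  refine (div_le_div₀ (Real.exp_pos _).le h1 (Real.exp_pos _) h2).trans ?_
  rw [← Real.exp_sub]
  refine Real.exp_le_exp.2 ?_
  linarith

lemma exp_ge (h𝒰 : (𝒰 : Filter ℕ) ≤ atTop) (C θ : ℝ) (hθ : 0 < θ) :
    ∀ᶠ n : ℕ in (𝒰 : Filter ℕ), C ≤ Real.exp (θ * n) := by
  filter_upwards [hH h𝒰 (C / θ)] with n hn
  rw [div_le_iff₀ hθ] at hn
  have := Real.add_one_le_exp (θ * n)
  linarith

lemma Up.const (h𝒰 : (𝒰 : Filter ℕ) ≤ atTop) (c : ℝ) : Up 𝒰 (fun _ => c) 0 := by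
  intro θ hθ
  rw [zero_add]
  exact exp_ge h𝒰 |c| θ hθ

lemma Up.add (h𝒰 : (𝒰 : Filter ℕ) ≤ atTop) {f g : ℕ → ℝ} {a : ℝ} (hf : Up 𝒰 f a)
    (hg : Up 𝒰 g a) : Up 𝒰 (fun n => f n + g n) a := by
  intro θ hθ
  filter_upwards [hf (θ / 2) (half_pos hθ), hg (θ / 2) (half_pos hθ),
    exp_ge h𝒰 2 (θ / 2) (half_pos hθ)] with n h1 h2 h3
  have h4 : Real.exp ((a + θ) * n) = Real.exp (θ / 2 * n) * Real.exp ((a + θ / 2) * n) := by
    rw [← Real.exp_add]
    congr 1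
    ring
  rw [h4]
  have h5 := abs_add_le (f n) (g n)
  have h6 := Real.exp_pos ((a + θ / 2) * n)
  nlinarith

lemma Up.neg {f : ℕ → ℝ} {a : ℝ} (hf : Up 𝒰 f a) : Up 𝒰 (fun n => -f n) a := by
  intro θ hθ
  filter_upwards [hf θ hθ] with n h1
  rwa [abs_neg]

lemma Up.sub (h𝒰 : (𝒰 : Filter ℕ) ≤ atTop) {f g : ℕ → ℝ} {a : ℝ} (hf : Up 𝒰 f a)
    (hg : Up 𝒰 g a) : Up 𝒰 (fun n => f n - g n) a := by
  simp only [sub_eq_add_neg]
  exact hf.add h𝒰 hg.neg

lemma Up.zero {a : ℝ} : Up 𝒰 (fun _ => 0) a := by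
  intro θ hθ
  refine Eventually.of_forall fun n => ?_
  rw [abs_zero]
  exact (Real.exp_pos _).le

lemma Up.sum (h𝒰 : (𝒰 : Filter ℕ) ≤ atTop) {ι : Type} (t : Finset ι) {f : ι → ℕ → ℝ} {a : ℝ}
    (hf : ∀ i ∈ t, Up 𝒰 (f i) a) : Up 𝒰 (fun n => ∑ i ∈ t, f i n) a := by
  classical
  induction t using Finset.induction_on with
  | empty => simpa using Up.zero
  | insert i t hi ih =>
    simp only [Finset.sum_insert hi]
    exact (hf i (Finset.mem_insert_self _ _)).add h𝒰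
      (ih fun j hj => hf j (Finset.mem_insert_of_mem hj))

lemma Up.one : Up 𝒰 (fun _ => 1) 0 := by
  refine Up.of_le (Eventually.of_forall fun n => ?_)
  simp

lemma Up.pow {f : ℕ → ℝ} {a : ℝ} (hf : Up 𝒰 f a) (t : ℕ) :
    Up 𝒰 (fun n => f n ^ t) (t * a) := by
  induction t with
  | zero => simpa using Up.one
  | succ t ih =>
    simp only [pow_succ]
    have := ih.mul hf
    have e : ((t + 1 : ℕ) : ℝ) * a = t * a + a := by push_cast; ring
    rw [e]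
    exact this

lemma Up.prod {ι : Type} (t : Finset ι) {f : ι → ℕ → ℝ} {a : ι → ℝ}
    (hf : ∀ i ∈ t, Up 𝒰 (f i) (a i)) : Up 𝒰 (fun n => ∏ i ∈ t, f i n) (∑ i ∈ t, a i) := by
  classical
  induction t using Finset.induction_on with
  | empty => simpa using Up.one
  | insert i t hi ih =>
    simp only [Finset.prod_insert hi, Finset.sum_insert hi]
    exact (hf i (Finset.mem_insert_self _ _)).mul
      (ih fun j hj => hf j (Finset.mem_insert_of_mem hj))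

lemma Lo.mul {f g : ℕ → ℝ} {a c : ℝ} (hf : Lo 𝒰 f a) (hg : Lo 𝒰 g c) :
    Lo 𝒰 (fun n => f n * g n) (a + c) := by
  intro θ hθ
  filter_upwards [hf (θ / 2) (half_pos hθ), hg (θ / 2) (half_pos hθ)] with n h1 h2
  rw [abs_mul]
  refine le_trans ?_ (mul_le_mul h1 h2 (Real.exp_pos _).le (abs_nonneg _))
  rw [← Real.exp_add]
  refine Real.exp_le_exp.2 ?_
  linarith

lemma Lo.one : Lo 𝒰 (fun _ => 1) 0 := by
  intro θ hθ
  refine Eventually.of_forall fun n => ?_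
  rw [abs_one, Real.exp_le_one_iff]
  have : (0 : ℝ) ≤ n := Nat.cast_nonneg n
  nlinarith

lemma Lo.pow {f : ℕ → ℝ} {a : ℝ} (hf : Lo 𝒰 f a) (t : ℕ) :
    Lo 𝒰 (fun n => f n ^ t) (t * a) := by
  induction t with
  | zero => simpa using Lo.one
  | succ t ih =>
    simp only [pow_succ]
    have := ih.mul hf
    have e : ((t + 1 : ℕ) : ℝ) * a = t * a + a := by push_cast; ring
    rw [e]
    exact this

lemma Lo.prod {ι : Type} (t : Finset ι) {f : ι → ℕ → ℝ} {a : ι → ℝ}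
    (hf : ∀ i ∈ t, Lo 𝒰 (f i) (a i)) : Lo 𝒰 (fun n => ∏ i ∈ t, f i n) (∑ i ∈ t, a i) := by
  classical
  induction t using Finset.induction_on with
  | empty => simpa using Lo.one
  | insert i t hi ih =>
    simp only [Finset.prod_insert hi, Finset.sum_insert hi]
    exact (hf i (Finset.mem_insert_self _ _)).mul
      (ih fun j hj => hf j (Finset.mem_insert_of_mem hj))

/-- growth rates exist along an ultrafilter -/
lemma exists_lim (h𝒰 : (𝒰 : Filter ℕ) ≤ atTop) (f : ℕ → ℝ)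
    (hf : ∀ᶠ n in (𝒰 : Filter ℕ), 0 < f n) (lo hi : ℝ)
    (h : ∀ᶠ n : ℕ in (𝒰 : Filter ℕ), lo * n ≤ Real.log (f n) ∧ Real.log (f n) ≤ hi * n) :
    ∃ a, lo ≤ a ∧ a ≤ hi ∧ Up 𝒰 f a ∧ Lo 𝒰 f a := by
  have h1 : ∀ᶠ n : ℕ in (𝒰 : Filter ℕ), Real.log (f n) / n ∈ Set.Icc lo hi := by
    filter_upwards [h, h𝒰 (eventually_ge_atTop 1)] with n hn h1
    have h2 : (0 : ℝ) < n := by exact_mod_cast h1
    exact ⟨by rw [le_div_iff₀ h2]; exact hn.1, by rw [div_le_iff₀ h2]; exact hn.2⟩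
  obtain ⟨a, ha, hlim⟩ := isCompact_Icc.ultrafilter_le_nhds (s := Set.Icc lo hi)
    (𝒰.map fun n : ℕ => Real.log (f n) / n) (by
      rw [le_principal_iff]
      exact h1)
  have hlim' : Tendsto (fun n : ℕ => Real.log (f n) / n) (𝒰 : Filter ℕ) (nhds a) := hlim
  have hnear : ∀ θ : ℝ, 0 < θ → ∀ᶠ n : ℕ in (𝒰 : Filter ℕ), |f n| ≤ Real.exp ((a + θ) * n) ∧
      Real.exp ((a - θ) * n) ≤ |f n| := by
    intro θ hθ
    filter_upwards [Metric.tendsto_nhds.1 hlim' θ hθ, hf, h𝒰 (eventually_ge_atTop 1)]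
      with n hn h1 h2
    have h3 : (0 : ℝ) < n := by exact_mod_cast h2
    rw [Real.dist_eq, abs_lt] at hn
    have h4 : Real.log (f n) = Real.log (f n) / n * n := by field_simp
    rw [abs_of_pos h1]
    constructor
    · rw [← Real.log_le_iff_le_exp h1, h4]
      exact mul_le_mul_of_nonneg_right (by linarith [hn.2]) h3.le
    · rw [← Real.le_log_iff_exp_le h1, h4]
      exact mul_le_mul_of_nonneg_right (by linarith [hn.1]) h3.le
  exact ⟨a, ha.1, ha.2, fun θ hθ => (hnear θ hθ).mono fun n hn => hn.1,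
    fun θ hθ => (hnear θ hθ).mono fun n hn => hn.2⟩

/-- sequences of slow growth are small -/
lemma sm_of_up {m : ℕ → ℤ} (h : Up 𝒰 (fun n => (m n : ℝ)) 0) : Sm 𝒰 fun n => (m n : Kf) := by
  intro N
  have hw : (0 : ℝ) ≤ totalWeight Kf := Nat.cast_nonneg _
  obtain ⟨θ, hθ⟩ : ∃ θ : ℝ, θ = 1 / (((N : ℝ) + 1) * (totalWeight Kf + 1)) := ⟨_, rfl⟩
  have hpos : (0 : ℝ) < ((N : ℝ) + 1) * (totalWeight Kf + 1) := by positivity
  have hθ0 : 0 < θ := by
    rw [hθ]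
    positivity
  filter_upwards [h θ hθ0] with n hn
  have h1 := height_int (κ := Kf) (m n)
  have h2 : Real.log (max 1 |(m n : ℝ)|) ≤ θ * n := by
    rw [Real.log_le_iff_le_exp (by positivity)]
    rw [zero_add] at hn
    refine max_le ?_ hn
    have : (0 : ℝ) ≤ θ * n := by positivity
    linarith [Real.add_one_le_exp (θ * n)]
  have h3 : (N : ℝ) * logHeight₁ ((m n : ℤ) : Kf) ≤ N * (totalWeight Kf * (θ * n)) :=
    mul_le_mul_of_nonneg_left (h1.trans (mul_le_mul_of_nonneg_left h2 hw)) (Nat.cast_nonneg N)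
  have h4 : (N : ℝ) * (totalWeight Kf * (θ * n)) ≤ n := by
    have h5 : θ * (((N : ℝ) + 1) * (totalWeight Kf + 1)) = 1 := by
      rw [hθ]
      field_simp
    have h6 : (N : ℝ) * totalWeight Kf ≤ ((N : ℝ) + 1) * (totalWeight Kf + 1) := by
      have : (0 : ℝ) ≤ N := Nat.cast_nonneg N
      nlinarith
    have h7 : (N : ℝ) * (totalWeight Kf * (θ * n)) = (N * totalWeight Kf) * (θ * n) := by ring
    rw [h7]
    have h8 : (0 : ℝ) ≤ θ * n := by positivity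
    calc (N * totalWeight Kf : ℝ) * (θ * n) ≤ ((N : ℝ) + 1) * (totalWeight Kf + 1) * (θ * n) :=
          mul_le_mul_of_nonneg_right h6 h8
      _ = (θ * (((N : ℝ) + 1) * (totalWeight Kf + 1))) * n := by ring
      _ = n := by rw [h5, one_mul]
  exact h3.trans h4

/-- the powers of the conjugate -/
lemma up_conj (j : ℕ) : Up 𝒰 (fun n => goldenConj ^ (4 * n * (j + 1)))
    (-(4 * ((j : ℝ) + 1) * Real.log goldenRatio)) := by
  refine Up.of_le (Eventually.of_forall fun n => ?_)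
  have h1 := conj_even (n * (j + 1))
  have e : 4 * (n * (j + 1)) = 4 * n * (j + 1) := by ring
  rw [e] at h1
  rw [h1, abs_of_pos (by have := goldenRatio_pos; positivity)]
  apply le_of_eq
  rw [← Real.exp_log (x := (goldenRatio ^ (4 * n * (j + 1)))⁻¹)
    (by have := goldenRatio_pos; positivity), Real.log_inv, Real.log_pow]
  congr 1
  push_cast
  ring

/-- the Fibonacci numbers -/
lemma up_fib (j : ℕ) : Up 𝒰 (fun n => (Nat.fib (4 * n * (j + 1)) : ℝ))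
    (4 * ((j : ℝ) + 1) * Real.log goldenRatio) := by
  refine Up.of_le (Eventually.of_forall fun n => ?_)
  rw [abs_of_nonneg (Nat.cast_nonneg _)]
  refine (fib_le_pow _).trans ?_
  apply le_of_eq
  rw [← Real.exp_log (x := goldenRatio ^ (4 * n * (j + 1)))
    (by have := goldenRatio_pos; positivity), Real.log_pow]
  congr 1
  push_cast
  ring

end

end Pool.Agent.J4.H52.FS
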