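import Mathlib
import Pool.Agent.J4.H52.FS.NoRel
import Pool.Agent.J4.H52.FS.SubU
import Pool.Agent.J4.H52.FS.Up
import Pool.Agent.J4.H52.FS.Mat
import Pool.Agent.J4.H64.FL.Basic

/-!
# The coordinates and the growth of the linear forms
-/

set_option autoImplicit false

namespace Pool.Agent.J4.H52.FS

open Filter Real

section

variable {k : ℕ} {B B' : Type} {J0 : ℕ}

/-- the exponents of the monomials -/
def Ex (e : B → Fin k → ℕ) (e' : B' → Fin k → ℕ) : Ix B B' J0 → Fin k → ℕ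
  | Sum.inl (β, _, _) => e β
  | Sum.inr β' => e' β'

/-- the cofactors divisible by the common divisor -/
def Nm (m : Fin k → ℕ → ℤ) (u : Fin k → ℕ → ℕ) (n : ℕ) : Ix B B' J0 → ℤ
  | Sum.inl (_, j, true) => Nat.fib (4 * n * (j + 1))
  | Sum.inl (_, j, false) => Nat.fib (4 * n * (j + 1) - 1) - 1
  | Sum.inr _ => ∑ i, m i n * (u i n : ℤ)

/-- the coordinates -/
def Xc (m : Fin k → ℕ → ℤ) (u : Fin k → ℕ → ℕ) (g : ℕ → ℕ) (e : B → Fin k → ℕ)
    (e' : B' → Fin k → ℕ) (n : ℕ) (t : Ix B B' J0) : ℤ :=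
  xz m u (Ex e e' t) n * (Nm m u n t / (g n : ℤ))

/-- the divisors of the coordinates -/
def Dc (u : Fin k → ℕ → ℕ) (e : B → Fin k → ℕ) (e' : B' → Fin k → ℕ) (n : ℕ)
    (t : Ix B B' J0) : ℕ := ∏ i, u i n ^ Ex e e' t i

/-- the growth rates of the divisors -/
noncomputable def Wv (lam : Fin k → ℝ) (e : B → Fin k → ℕ) (e' : B' → Fin k → ℕ)
    (t : Ix B B' J0) : ℝ := ∑ i, (Ex e e' t i : ℝ) * lam i

/-- the growth rates of the forms, relative to the divisors -/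
noncomputable def Rv (κ ρ : ℝ) : Ix B B' J0 → ℝ
  | Sum.inl (_, j, true) => 4 * ((j : ℕ) + 1 : ℝ) * Real.log goldenRatio - ρ
  | Sum.inl (_, j, false) => (if j = Fin.last J0 then 0 else
      -(4 * ((j : ℕ) + 1 : ℝ) * Real.log goldenRatio)) - ρ
  | Sum.inr _ => -(4 * ((J0 : ℕ) + 1 : ℝ) * Real.log goldenRatio) + κ - ρ

lemma sum_Rv [Fintype B] [Fintype B'] (κ ρ : ℝ) : ∑ t : Ix B B' J0, Rv κ ρ t =
    Fintype.card B * (4 * ((J0 : ℝ) + 1) * Real.log goldenRatio - 2 * ((J0 : ℝ) + 1) * ρ) +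
    Fintype.card B' * (-(4 * ((J0 : ℝ) + 1) * Real.log goldenRatio) + κ - ρ) := by
  rw [sum_ix]
  simp only [Rv]
  have h1 : ∀ j : Fin (J0 + 1), (4 * ((j : ℕ) + 1 : ℝ) * Real.log goldenRatio - ρ +
      ((if j = Fin.last J0 then 0 else -(4 * ((j : ℕ) + 1 : ℝ) * Real.log goldenRatio)) - ρ)) =
      (if j = Fin.last J0 then 4 * ((j : ℕ) + 1 : ℝ) * Real.log goldenRatio else 0) - 2 * ρ := by
    intro j
    split_ifs <;> ring
  rw [Finset.sum_congr rfl fun β _ => Finset.sum_congr rfl fun j _ => h1 j]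
  rw [Finset.sum_const, Finset.sum_const, Finset.sum_sub_distrib, Finset.sum_ite_eq',
    if_pos (Finset.mem_univ _), Finset.sum_const]
  simp only [Finset.card_univ, nsmul_eq_mul, Fintype.card_fin, Fin.val_last]
  push_cast
  ring

lemma Nm_dvd (m : Fin k → ℕ → ℤ) (u : Fin k → ℕ → ℕ) (n : ℕ) (hn : 1 ≤ n) (g : ℕ)
    (h1 : g ∣ Nat.fib n) (h2 : (g : ℤ) ∣ ∑ i, m i n * (u i n : ℤ)) (t : Ix B B' J0) :
    (g : ℤ) ∣ Nm m u n t := by
  have h1' : (g : ℤ) ∣ Nat.fib n := by exact_mod_cast h1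
  rcases t with ⟨β, j, _ | _⟩ | β'
  · exact h1'.trans (fib_dvd_sub_one n j hn)
  · refine h1'.trans ?_
    simp only [Nm]
    exact_mod_cast Nat.fib_dvd n (4 * n * (j + 1)) ⟨4 * (j + 1), by ring⟩
  · exact h2

lemma Xc_mul (m : Fin k → ℕ → ℤ) (u : Fin k → ℕ → ℕ) (g : ℕ → ℕ) (e : B → Fin k → ℕ)
    (e' : B' → Fin k → ℕ) (n : ℕ) (hn : 1 ≤ n) (h1 : g n ∣ Nat.fib n)
    (h2 : (g n : ℤ) ∣ ∑ i, m i n * (u i n : ℤ)) (t : Ix B B' J0) :
    Xc m u g e e' n t * g n = xz m u (Ex e e' t) n * Nm m u n t := by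
  unfold Xc
  rw [mul_assoc, Int.ediv_mul_cancel (Nm_dvd m u n hn (g n) h1 h2 t)]

lemma Dc_dvd (m : Fin k → ℕ → ℤ) (u : Fin k → ℕ → ℕ) (g : ℕ → ℕ) (e : B → Fin k → ℕ)
    (e' : B' → Fin k → ℕ) (n : ℕ) (t : Ix B B' J0) :
    (Dc u e e' n t : ℤ) ∣ Xc m u g e e' n t := by
  unfold Dc Xc xz
  refine Dvd.dvd.mul_right ?_ _
  push_cast
  refine Finset.prod_dvd_prod_of_dvd _ _ fun i _ => ?_
  rw [mul_pow]
  exact Dvd.intro_left _ rfl

lemma pair_val (m : Fin k → ℕ → ℤ) (u : Fin k → ℕ → ℕ) (g : ℕ → ℕ) (e : B → Fin k → ℕ)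
    (e' : B' → Fin k → ℕ) (n : ℕ) (hn : 1 ≤ n) (hg : g n ≠ 0) (h1 : g n ∣ Nat.fib n)
    (h2 : (g n : ℤ) ∣ ∑ i, m i n * (u i n : ℤ)) (β : B) (j : Fin (J0 + 1)) :
    (Xc m u g e e' n (Sum.inl (β, j, false) : Ix B B' J0) : ℝ) +
      goldenConj * (Xc m u g e e' n (Sum.inl (β, j, true) : Ix B B' J0) : ℝ) =
      (xz m u (e β) n : ℝ) * (goldenConj ^ (4 * n * ((j : ℕ) + 1)) - 1) / g n := by
  have e1 := congrArg (Int.cast : ℤ → ℝ)
    (Xc_mul m u g e e' n hn h1 h2 (Sum.inl (β, j, false) : Ix B B' J0))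
  have e2 := congrArg (Int.cast : ℤ → ℝ)
    (Xc_mul m u g e e' n hn h1 h2 (Sum.inl (β, j, true) : Ix B B' J0))
  simp only [Ex, Nm] at e1 e2
  push_cast at e1 e2
  have e3 := conj_pow (4 * n * ((j : ℕ) + 1)) (by nlinarith)
  have hgR : (g n : ℝ) ≠ 0 := by exact_mod_cast hg
  rw [eq_div_iff hgR, ← e3]
  linear_combination e1 + goldenConj * e2

lemma xz_up {𝒰 : Ultrafilter ℕ} (m : Fin k → ℕ → ℤ) (u : Fin k → ℕ → ℕ) (lam : Fin k → ℝ)
    (hm : ∀ i, Up 𝒰 (fun n => (m i n : ℝ)) 0) (hu : ∀ i, Up 𝒰 (fun n => (u i n : ℝ)) (lam i))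
    (μ : Fin k → ℕ) : Up 𝒰 (fun n => (xz m u μ n : ℝ)) (∑ i, (μ i : ℝ) * lam i) := by
  have h1 := Up.prod (𝒰 := 𝒰) (Finset.univ : Finset (Fin k))
    (f := fun i n => ((m i n : ℝ) * (u i n : ℝ)) ^ μ i) (a := fun i => (μ i : ℝ) * lam i)
    (fun i _ => by
      have := ((hm i).mul (hu i)).pow (μ i)
      rw [zero_add] at this
      exact this)
  refine h1.congr (Eventually.of_forall fun n => ?_)
  unfold xz
  push_cast
  rfl

/-- the growth of the forms -/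
lemma row_up [Fintype B] [Fintype B'] {𝒰 : Ultrafilter ℕ} (h𝒰 : (𝒰 : Filter ℕ) ≤ atTop)
    (m : Fin k → ℕ → ℤ) (u : Fin k → ℕ → ℕ) (g : ℕ → ℕ) (lam : Fin k → ℝ) (κ ρ : ℝ)
    (hm : ∀ i, Up 𝒰 (fun n => (m i n : ℝ)) 0) (hu : ∀ i, Up 𝒰 (fun n => (u i n : ℝ)) (lam i))
    (hlamκ : ∀ i, lam i ≤ κ)
    (hρ : Lo 𝒰 (fun n => (g n : ℝ)) ρ) (hg0 : ∀ᶠ n in (𝒰 : Filter ℕ), g n ≠ 0)
    (hg1 : ∀ᶠ n in (𝒰 : Filter ℕ), g n ∣ Nat.fib n)
    (hg2 : ∀ᶠ n in (𝒰 : Filter ℕ), (g n : ℤ) ∣ ∑ i, m i n * (u i n : ℤ))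
    (e : B → Fin k → ℕ) (e' : B' → Fin k → ℕ) (l : B' → B → ℚ)
    (hl : ∀ β', ∀ᶠ n in (𝒰 : Filter ℕ), (∑ i, xr m u i n) * xq (xr m u) (e' β') n =
      ∑ β, l β' β * xq (xr m u) (e β) n) (t : Ix B B' J0) :
    Up 𝒰 (fun n => ∑ s, Mx (fun β' β => (l β' β : ℝ)) t s * (Xc m u g e e' n s : ℝ))
      (Wv lam e e' t + Rv κ ρ t) := by
  have hn1 : ∀ᶠ n : ℕ in (𝒰 : Filter ℕ), 1 ≤ n := h𝒰 (eventually_ge_atTop 1)
  have hxz := xz_up m u lam hm hu
  have hL : 0 < Real.log goldenRatio := Real.log_pos one_lt_goldenRatio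
  have hgood : ∀ᶠ n in (𝒰 : Filter ℕ), 1 ≤ n ∧ g n ≠ 0 ∧ g n ∣ Nat.fib n ∧
      (g n : ℤ) ∣ ∑ i, m i n * (u i n : ℤ) := by
    filter_upwards [hn1, hg0, hg1, hg2] with n h1 h2 h3 h4
    exact ⟨h1, h2, h3, h4⟩
  rcases t with ⟨β, j, _ | _⟩ | β'
  · by_cases hj : j = Fin.last J0
    · -- the last form
      subst hj
      have h1 := ((hxz (e β)).mul (((up_conj (𝒰 := 𝒰) J0).mono
        (by nlinarith : -(4 * ((J0 : ℝ) + 1) * Real.log goldenRatio) ≤ 0)).sub h𝒰 Up.one)).div hρ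
      refine (h1.congr ?_).mono ?_
      · filter_upwards [hgood] with n hn
        rw [dot_last, pair_val m u g e e' n hn.1 hn.2.1 hn.2.2.1 hn.2.2.2]
        simp only [Fin.val_last]
      · simp only [Wv, Ex, Rv, if_true]
        linarith
    · -- the differences
      have hjle : (j : ℕ) < J0 := by
        have := Fin.lt_last_iff_ne_last.2 hj
        exact this
      have hjR : ((j : ℕ) : ℝ) ≤ J0 := by exact_mod_cast hjle.le
      have h1 := ((hxz (e β)).mul ((up_conj (𝒰 := 𝒰) j).sub h𝒰 ((up_conj (𝒰 := 𝒰) J0).mono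
        (by nlinarith : -(4 * ((J0 : ℝ) + 1) * Real.log goldenRatio) ≤
          -(4 * (((j : ℕ) : ℝ) + 1) * Real.log goldenRatio))))).div hρ
      refine (h1.congr ?_).mono ?_
      · filter_upwards [hgood] with n hn
        rw [dot_false _ _ _ _ hj, pair_val m u g e e' n hn.1 hn.2.1 hn.2.2.1 hn.2.2.2,
          pair_val m u g e e' n hn.1 hn.2.1 hn.2.2.1 hn.2.2.2]
        simp only [Fin.val_last]
        ring
      · simp only [Wv, Ex, Rv, if_neg hj]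
        linarith
  · -- the first coordinates
    have h1 := ((hxz (e β)).mul (up_fib (𝒰 := 𝒰) j)).div hρ
    refine (h1.congr ?_).mono ?_
    · filter_upwards [hgood] with n hn
      rw [dot_true]
      have e2 := congrArg (Int.cast : ℤ → ℝ)
        (Xc_mul m u g e e' n hn.1 hn.2.2.1 hn.2.2.2 (Sum.inl (β, j, true) : Ix B B' J0))
      simp only [Ex, Nm] at e2
      push_cast at e2
      have hgR : (g n : ℝ) ≠ 0 := by exact_mod_cast hn.2.1
      rw [eq_div_iff hgR]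
      exact e2
    · simp only [Wv, Ex, Rv]
      linarith
  · -- the forms of the sum
    have hDup : Up 𝒰 (fun n => ∑ i, (m i n : ℝ) * (u i n : ℝ)) κ := by
      refine Up.sum h𝒰 _ fun i _ => ?_
      refine ((hm i).mul (hu i)).mono ?_
      linarith [hlamκ i]
    have h1 := (((up_conj (𝒰 := 𝒰) J0).mul (hxz (e' β'))).mul hDup).div hρ
    refine (h1.congr ?_).mono ?_
    · filter_upwards [hgood, hl β'] with n hn hln
      rw [dot_inr]
      have hgR : (g n : ℝ) ≠ 0 := by exact_mod_cast hn.2.1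
      have e2 := congrArg (Int.cast : ℤ → ℝ)
        (Xc_mul m u g e e' n hn.1 hn.2.2.1 hn.2.2.2 (Sum.inr β' : Ix B B' J0))
      simp only [Ex, Nm] at e2
      push_cast at e2
      have e3 := congrArg (Rat.cast : ℚ → ℝ) hln
      simp only [xq_eq] at e3
      unfold xr at e3
      push_cast at e3
      have e4 : ∑ β, (l β' β : ℝ) * ((Xc m u g e e' n
          (Sum.inl (β, Fin.last J0, false) : Ix B B' J0) : ℝ) + goldenConj *
          (Xc m u g e e' n (Sum.inl (β, Fin.last J0, true) : Ix B B' J0) : ℝ)) =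
          (∑ β, (l β' β : ℝ) * (xz m u (e β) n : ℝ)) *
            (goldenConj ^ (4 * n * (J0 + 1)) - 1) / g n := by
        rw [mul_div_assoc, Finset.sum_mul]
        refine Finset.sum_congr rfl fun β _ => ?_
        rw [pair_val m u g e e' n hn.1 hn.2.1 hn.2.2.1 hn.2.2.2]
        simp only [Fin.val_last]
        ring
      rw [e4, ← e3]
      rw [eq_div_iff hgR, add_mul, e2, div_mul_cancel₀ _ hgR]
      ring
    · simp only [Wv, Ex, Rv]
      linarith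

end

end Pool.Agent.J4.H52.FS
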