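import Mathlib
import Pool.Agent.J4.H52.FS.Rows

/-!
# The contradiction from large common divisors along an ultrafilter
-/

set_option autoImplicit false

namespace Pool.Agent.J4.H52.FS

open Filter Real

/-- along an ultrafilter, the Fibonacci numbers have no large common divisors with sums of
almost units -/
theorem core {k : ℕ} (b : ℕ) (hb : 2 ≤ b) (𝒰 : Ultrafilter ℕ) (h𝒰 : (𝒰 : Filter ℕ) ≤ atTop)
    (m : Fin k → ℕ → ℤ) (u : Fin k → ℕ → ℕ) (g : ℕ → ℕ)
    (hub : ∀ i n, ∃ K, u i n ∣ b ^ K) (κ : ℝ) (hκ0 : 0 ≤ κ)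
    (hκ : ∀ i, ∀ᶠ n : ℕ in (𝒰 : Filter ℕ), Real.log (u i n) ≤ κ * n)
    (hm : ∀ i, Up 𝒰 (fun n => (m i n : ℝ)) 0)
    (hD : ∀ᶠ n in (𝒰 : Filter ℕ), ∑ i, m i n * (u i n : ℤ) ≠ 0)
    (hg1 : ∀ᶠ n in (𝒰 : Filter ℕ), g n ∣ Nat.fib n)
    (hg2 : ∀ᶠ n in (𝒰 : Filter ℕ), (g n : ℤ) ∣ ∑ i, m i n * (u i n : ℤ))
    (ε : ℝ) (hε : 0 < ε) (hg3 : ∀ᶠ n : ℕ in (𝒰 : Filter ℕ), ε * n ≤ Real.log (g n)) : False := by
  classical
  have hL : 0 < Real.log goldenRatio := Real.log_pos one_lt_goldenRatio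
  have hlogb : 0 < Real.log b := Real.log_pos (by exact_mod_cast (by omega : 1 < b))
  have hn1 : ∀ᶠ n : ℕ in (𝒰 : Filter ℕ), 1 ≤ n := h𝒰 (eventually_ge_atTop 1)
  have hu0 : ∀ i n, u i n ≠ 0 := by
    intro i n h
    obtain ⟨K, hK⟩ := hub i n
    rw [h] at hK
    exact pow_ne_zero K (by omega) (Nat.eq_zero_of_zero_dvd hK)
  have hup : ∀ i n p, p.Prime → p ∣ u i n → p ∣ b := by
    intro i n p hp hpu
    obtain ⟨K, hK⟩ := hub i n
    exact hp.dvd_of_dvd_pow (hpu.trans hK)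
  -- rates
  have hlam : ∀ i, ∃ a, 0 ≤ a ∧ a ≤ κ ∧ Up 𝒰 (fun n => (u i n : ℝ)) a ∧
      Lo 𝒰 (fun n => (u i n : ℝ)) a := by
    intro i
    refine exists_lim h𝒰 _ (Eventually.of_forall fun n => ?_) 0 κ ?_
    · exact_mod_cast Nat.pos_of_ne_zero (hu0 i n)
    · filter_upwards [hκ i] with n hn
      refine ⟨?_, hn⟩
      rw [zero_mul]
      exact Real.log_nonneg (by exact_mod_cast Nat.pos_of_ne_zero (hu0 i n))
  choose lam hlam0 hlamκ hlamU hlamL using hlam
  have hg0 : ∀ᶠ n in (𝒰 : Filter ℕ), g n ≠ 0 := by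
    filter_upwards [hg1, hn1] with n h1 h2 h3
    rw [h3] at h1
    exact (Nat.fib_pos.2 h2).ne' (Nat.eq_zero_of_zero_dvd h1)
  obtain ⟨ρ, hρ1, hρ2, hρU, hρL⟩ := exists_lim h𝒰 (fun n => (g n : ℝ))
    (hg0.mono fun n hn => by exact_mod_cast Nat.pos_of_ne_zero hn) ε (Real.log goldenRatio) (by
      filter_upwards [hg3, hg1, hn1, hg0] with n h1 h2 h3 h4
      refine ⟨h1, ?_⟩
      have h5 : (g n : ℝ) ≤ goldenRatio ^ n := by
        refine le_trans ?_ (fib_le_pow n)
        exact_mod_cast Nat.le_of_dvd (Nat.fib_pos.2 h3) h2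
      have h6 : (0 : ℝ) < g n := by exact_mod_cast Nat.pos_of_ne_zero h4
      have h7 := Real.log_le_log h6 h5
      rw [Real.log_pow] at h7
      linarith)
  -- bases
  obtain ⟨η, hη⟩ : ∃ η : ℝ, η = min (1 / 2) (ε / (4 * Real.log goldenRatio)) := ⟨_, rfl⟩
  have hη0 : 0 < η := by
    rw [hη]
    exact lt_min (by norm_num) (by positivity)
  have hη1 : η < 1 := by
    rw [hη]
    exact lt_of_le_of_lt (min_le_left _ _) (by norm_num)
  have hη2 : 4 * Real.log goldenRatio * η ≤ ε := by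
    have h1 : η ≤ ε / (4 * Real.log goldenRatio) := by
      rw [hη]
      exact min_le_right _ _
    rw [le_div_iff₀ (by positivity)] at h1
    linarith
  have hDq : ∀ᶠ n in (𝒰 : Filter ℕ), ∑ i, xr m u i n ≠ 0 := by
    filter_upwards [hD] with n hn
    unfold xr
    rw [← Int.cast_sum]
    exact_mod_cast hn
  obtain ⟨M, B, B', hBf, hBf', e, e', l, hBne, hc1, hc2, -, -, hi, hi', hl⟩ :=
    exists_bases 𝒰 (xr m u) hDq η hη0 hη1
  -- the number of powers
  obtain ⟨J0, hJ0⟩ := exists_nat_gt ((κ + 1) / ε)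
  have hJ : κ + 1 ≤ ((J0 : ℝ) + 1) * ε := by
    rw [div_lt_iff₀ hε] at hJ0
    linarith
  -- independence
  have hindep : ∀ y : Ix B B' J0 → ℤ,
      (∀ᶠ n in (𝒰 : Filter ℕ), ∑ t, y t * Xc m u g e e' n t = 0) → y = 0 := by
    intro y hy
    obtain ⟨hp, hq, hr⟩ := no_rel b (by omega) 𝒰 h𝒰 m u hu0 hup (fun i => sm_of_up (hm i)) hD
      e e' l hi hi' hl (J0 + 1) (fun β j => y (Sum.inl (β, j, true)))
      (fun β j => y (Sum.inl (β, j, false))) (fun β' => y (Sum.inr β')) (by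
        filter_upwards [hy, hn1, hg1, hg2] with n h1 h2 h3 h4
        have h5 : ∑ t, y t * (xz m u (Ex e e' t) n * Nm m u n t) = 0 := by
          have h6 : (∑ t, y t * Xc m u g e e' n t) * g n = 0 := by rw [h1, zero_mul]
          rw [← h6, Finset.sum_mul]
          refine Finset.sum_congr rfl fun t _ => ?_
          rw [mul_assoc, Xc_mul m u g e e' n h2 h3 h4]
        rw [Fintype.sum_sum_type, Fintype.sum_prod_type] at h5
        simp only [Fintype.sum_prod_type, Fintype.sum_bool, Ex, Nm] at h5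
        exact h5)
    funext t
    rcases t with ⟨β, j, _ | _⟩ | β'
    · exact congrFun (congrFun hq β) j
    · exact congrFun (congrFun hp β) j
    · exact congrFun hr β'
  have hne : Nonempty (Ix B B' J0) := by
    obtain ⟨β⟩ := hBne
    exact ⟨Sum.inl (β, Fin.last J0, true)⟩
  have hx : ∀ᶠ n in (𝒰 : Filter ℕ), (fun t : Ix B B' J0 => Xc m u g e e' n t) ≠ 0 := by
    rw [Ultrafilter.eventually_not]
    intro h
    have h1 := hindep (fun _ => 1) (by
      filter_upwards [h] with n hn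
      refine Finset.sum_eq_zero fun t _ => ?_
      rw [congrFun hn t]
      simp)
    obtain ⟨t⟩ := hne
    have := congrFun h1 t
    simp at this
  -- sizes of the divisors
  have hDcU : ∀ t : Ix B B' J0, Up 𝒰 (fun n => (Dc u e e' n t : ℝ)) (Wv lam e e' t) := by
    intro t
    have h1 := Up.prod (𝒰 := 𝒰) (Finset.univ : Finset (Fin k))
      (f := fun i n => (u i n : ℝ) ^ Ex e e' t i) (a := fun i => (Ex e e' t i : ℝ) * lam i)
      (fun i _ => (hlamU i).pow _)
    refine h1.congr (Eventually.of_forall fun n => ?_)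
    unfold Dc
    push_cast
    rfl
  have hDcL : ∀ t : Ix B B' J0, Lo 𝒰 (fun n => (Dc u e e' n t : ℝ)) (Wv lam e e' t) := by
    intro t
    have h1 := Lo.prod (𝒰 := 𝒰) (Finset.univ : Finset (Fin k))
      (f := fun i n => (u i n : ℝ) ^ Ex e e' t i) (a := fun i => (Ex e e' t i : ℝ) * lam i)
      (fun i _ => (hlamL i).pow _)
    intro θ hθ
    filter_upwards [h1 θ hθ] with n hn
    unfold Dc
    push_cast
    exact hn
  have hDcpos : ∀ (n : ℕ) (t : Ix B B' J0), 0 < Dc u e e' n t := by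
    intro n t
    unfold Dc
    exact Finset.prod_pos fun i _ => pow_pos (Nat.pos_of_ne_zero (hu0 i n)) _
  have hDcdvd : ∀ (n : ℕ) (t : Ix B B' J0), ∃ K, Dc u e e' n t ∣ b ^ K := by
    intro n t
    choose K hK using fun i => hub i n
    refine ⟨∑ i, K i * Ex e e' t i, ?_⟩
    unfold Dc
    rw [← Finset.prod_pow_eq_pow_sum]
    refine Finset.prod_dvd_prod_of_dvd _ _ fun i _ => ?_
    rw [pow_mul]
    exact pow_dvd_pow_of_dvd (hK i) _
  obtain ⟨κ', hκ'⟩ : ∃ κ' : ℕ, ∀ t : Ix B B' J0, Wv lam e e' t + 1 < κ' * Real.log 2 := by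
    obtain ⟨κ', hκ'⟩ := exists_nat_gt ((∑ t : Ix B B' J0, |Wv lam e e' t| + 1) / Real.log 2)
    refine ⟨κ', fun t => ?_⟩
    rw [div_lt_iff₀ (Real.log_pos one_lt_two)] at hκ'
    have h1 : |Wv lam e e' t| ≤ ∑ t : Ix B B' J0, |Wv lam e e' t| :=
      Finset.single_le_sum (f := fun t : Ix B B' J0 => |Wv lam e e' t|)
        (fun t _ => abs_nonneg _) (Finset.mem_univ t)
    linarith [le_abs_self (Wv lam e e' t)]
  have hDdvd : ∀ᶠ n in (𝒰 : Filter ℕ), ∀ t : Ix B B' J0, Dc u e e' n t ∣ b ^ (κ' * n) := by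
    rw [eventually_all]
    intro t
    filter_upwards [hDcU t 1 one_pos, hn1] with n h1 h2
    obtain ⟨K, hK⟩ := hDcdvd n t
    refine Pool.Agent.J4.H64.FL.dvd_pow_of_lt (by omega) hK ?_
    have h3 : (Dc u e e' n t : ℝ) < (2 : ℝ) ^ (κ' * n) := by
      rw [abs_of_nonneg (Nat.cast_nonneg _)] at h1
      refine lt_of_le_of_lt h1 ?_
      have h4 : (2 : ℝ) ^ (κ' * n) = Real.exp (κ' * Real.log 2 * n) := by
        rw [← Real.exp_log (x := (2 : ℝ) ^ (κ' * n)) (by positivity), Real.log_pow]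
        congr 1
        push_cast
        ring
      rw [h4, Real.exp_lt_exp]
      have h5 : (1 : ℝ) ≤ n := by exact_mod_cast h2
      nlinarith [hκ' t]
    exact_mod_cast h3
  -- parameters
  obtain ⟨c, hc⟩ : ∃ c : ℕ, c = Fintype.card (Ix B B' J0) := ⟨_, rfl⟩
  have hcpos : (0 : ℝ) < c := by
    rw [hc]
    exact_mod_cast Fintype.card_pos
  obtain ⟨θ, hθ⟩ : ∃ θ : ℝ, θ = 1 / (4 * c) := ⟨_, rfl⟩
  have hθ0 : 0 < θ := by
    rw [hθ]
    positivity
  have hcθ : (c : ℝ) * θ = 1 / 4 := by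
    rw [hθ]
    field_simp
  -- the sum of the rates
  have hsumR : ∑ t : Ix B B' J0, Rv κ ρ t ≤ -1 := by
    rw [sum_Rv]
    obtain ⟨d, hd⟩ : ∃ d : ℝ, d = Fintype.card B := ⟨_, rfl⟩
    obtain ⟨d', hd'⟩ : ∃ d' : ℝ, d' = Fintype.card B' := ⟨_, rfl⟩
    have hd1 : 1 ≤ d := by
      rw [hd]
      exact_mod_cast Fintype.card_pos
    have hd'0 : 0 ≤ d' := by
      rw [hd']
      exact Nat.cast_nonneg _
    have hdd' : d' ≤ d := by
      rw [hd, hd']
      exact_mod_cast hc2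
    rw [← hd, ← hd'] at hc1 ⊢
    obtain ⟨J, hJdef⟩ : ∃ J : ℝ, J = (J0 : ℝ) + 1 := ⟨_, rfl⟩
    have hJ1 : 1 ≤ J := by
      rw [hJdef]
      linarith [(Nat.cast_nonneg J0 : (0 : ℝ) ≤ J0)]
    rw [← hJdef] at hJ ⊢
    have e1 : 4 * J * Real.log goldenRatio * (d - d') ≤ J * ρ * d := by
      have a1 : d - d' ≤ η * d := by linarith
      have a2 : 4 * J * Real.log goldenRatio * (d - d') ≤
          4 * J * Real.log goldenRatio * (η * d) :=
        mul_le_mul_of_nonneg_left a1 (by positivity)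
      have a3 : 4 * J * Real.log goldenRatio * (η * d) =
          (4 * Real.log goldenRatio * η) * (J * d) := by ring
      have a4 : (4 * Real.log goldenRatio * η) * (J * d) ≤ ρ * (J * d) :=
        mul_le_mul_of_nonneg_right (hη2.trans hρ1) (by positivity)
      linarith
    have e2 : d' * κ ≤ d * κ := mul_le_mul_of_nonneg_right hdd' hκ0
    have e3 : 0 ≤ d' * ρ := mul_nonneg hd'0 (hε.le.trans hρ1)
    have e4 : (κ + 1) * d ≤ J * ρ * d := by
      refine mul_le_mul_of_nonneg_right ?_ (by linarith)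
      exact hJ.trans (mul_le_mul_of_nonneg_left hρ1 (by linarith))
    nlinarith
  obtain ⟨y, hy0, hy⟩ := subU (rk (B := B) (B' := B') (J0 := J0)) b hb
    (Mx fun β' β => (l β' β : ℝ)) (Mx_alg l) (Mx_tri _) (Mx_diag _) 𝒰 h𝒰
    (fun n t => Xc m u g e e' n t) hx (fun n t => Dc u e e' n t) κ' hDdvd
    (Eventually.of_forall fun n t => Dc_dvd m u g e e' n t)
    (fun t => (Wv lam e e' t + Rv κ ρ t + θ) / Real.log b) 1 one_pos
    (by
      rw [eventually_all]
      intro t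
      have h1 := row_up h𝒰 m u g lam κ ρ hm hlamU hlamκ hρL hg0 hg1 hg2 e e' l hl t θ hθ0
      filter_upwards [h1] with n hn
      refine hn.trans ?_
      rw [one_mul, Real.rpow_def_of_pos (by exact_mod_cast (by omega : 0 < b))]
      apply le_of_eq
      congr 1
      field_simp)
    (1 / (2 * Real.log b)) (by positivity)
    (by
      have h1 : ∀ᶠ n : ℕ in (𝒰 : Filter ℕ), ∀ t : Ix B B' J0,
          (Wv lam e e' t - θ) * n ≤ Real.log (Dc u e e' n t) := by
        rw [eventually_all]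
        intro t
        filter_upwards [hDcL t θ hθ0] with n hn
        rw [abs_of_nonneg (Nat.cast_nonneg _)] at hn
        rwa [Real.le_log_iff_exp_le (by exact_mod_cast hDcpos n t)]
      filter_upwards [h1] with n hn
      refine le_trans ?_ (Finset.sum_le_sum fun t _ => hn t)
      rw [← Finset.sum_mul, ← Finset.sum_div]
      have e1 : ((∑ t : Ix B B' J0, (Wv lam e e' t + Rv κ ρ t + θ)) / Real.log b +
          1 / (2 * Real.log b)) * n * Real.log b =
          (∑ t : Ix B B' J0, (Wv lam e e' t + Rv κ ρ t + θ) + 1 / 2) * n := by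
        field_simp
      rw [e1]
      refine mul_le_mul_of_nonneg_right ?_ (Nat.cast_nonneg n)
      rw [Finset.sum_add_distrib, Finset.sum_add_distrib, Finset.sum_sub_distrib,
        Finset.sum_const, Finset.card_univ, ← hc, nsmul_eq_mul, hcθ]
      linarith)
  exact hy0 (hindep y hy)

end Pool.Agent.J4.H52.FS
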