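import Mathlib

/-!
# Integers whose digits lie in few short windows
-/

set_option autoImplicit false

namespace Pool.Agent.J4.H52.FS

/-- the digits -/
lemma sum_digits (b d : ℕ) (T : ℕ) : d % b ^ T = ∑ t ∈ Finset.range T, d / b ^ t % b * b ^ t := by
  induction T with
  | zero => simp [Nat.mod_one]
  | succ T ih =>
    rw [Finset.sum_range_succ, ← ih, Nat.mod_pow_succ]
    ring

lemma digits_cover (b : ℕ) (hb : 2 ≤ b) (k : ℕ) (d w : ℕ) (hd : 0 < d) (a : Fin k → ℕ)
    (hcov : ∀ t, d / b ^ t % b ≠ 0 → ∃ i, a i ≤ t ∧ t < a i + w) :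
    ∃ (m : Fin k → ℤ) (u : Fin k → ℕ), (∀ i, |m i| ≤ (b : ℤ) ^ (2 * w)) ∧ (∀ i, ∃ K, u i = b ^ K) ∧
      (∀ i, u i ≤ d) ∧ (d : ℤ) = ∑ i, m i * (u i : ℤ) := by
  classical
  obtain ⟨T, hT⟩ : ∃ T, d < b ^ T := ⟨d, Nat.lt_pow_self (by omega)⟩
  have hsum := sum_digits b d T
  rw [Nat.mod_eq_of_lt hT] at hsum
  obtain ⟨P, hP⟩ : ∃ P : Finset ℕ, P = (Finset.range T).filter fun t => d / b ^ t % b ≠ 0 :=
    ⟨_, rfl⟩
  have hPm : ∀ t ∈ P, d / b ^ t % b ≠ 0 := by
    intro t ht
    rw [hP] at ht
    exact (Finset.mem_filter.1 ht).2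
  have hsumP : d = ∑ t ∈ P, d / b ^ t % b * b ^ t := by
    rw [hP, Finset.sum_filter_of_ne]
    · exact hsum
    · intro t _ h h0
      rw [h0, zero_mul] at h
      exact h rfl
  have hne : ∃ t, t ∈ P := by
    by_contra h
    push Not at h
    have : P = ∅ := Finset.eq_empty_of_forall_notMem h
    rw [this, Finset.sum_empty] at hsumP
    omega
  have hk : Nonempty (Fin k) := by
    obtain ⟨t, ht⟩ := hne
    obtain ⟨i, -⟩ := hcov t (hPm t ht)
    exact ⟨i⟩
  choose! f hf using hcov
  have hble : ∀ t ∈ P, b ^ t ≤ d := by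
    intro t ht
    by_contra h
    push Not at h
    have := hPm t ht
    rw [Nat.div_eq_of_lt h] at this
    simp at this
  refine ⟨fun i => ∑ t ∈ P.filter fun t => f t = i, ((d / b ^ t % b : ℕ) : ℤ) * (b : ℤ) ^ (t - a i),
    fun i => if (P.filter fun t => f t = i).Nonempty then b ^ a i else 1, ?_, ?_, ?_, ?_⟩
  · intro i
    have h1 : ∑ t ∈ P.filter (fun t => f t = i), (d / b ^ t % b) * b ^ (t - a i) ≤ b ^ (2 * w) := by
      have hterm : ∀ t ∈ P.filter (fun t => f t = i), (d / b ^ t % b) * b ^ (t - a i) ≤ b ^ w := by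
        intro t ht
        rw [Finset.mem_filter] at ht
        obtain ⟨ht1, ht2⟩ := ht
        have h2 := hf t (hPm t ht1)
        rw [ht2] at h2
        have h3 : d / b ^ t % b ≤ b := (Nat.mod_lt _ (by omega)).le
        calc (d / b ^ t % b) * b ^ (t - a i) ≤ b * b ^ (t - a i) := Nat.mul_le_mul_right _ h3
          _ = b ^ (t - a i + 1) := by ring
          _ ≤ b ^ w := Nat.pow_le_pow_right (by omega) (by omega)
      have hcard : (P.filter fun t => f t = i).card ≤ w := by
        have : (P.filter fun t => f t = i) ⊆ Finset.Ico (a i) (a i + w) := by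
          intro t ht
          rw [Finset.mem_filter] at ht
          have h2 := hf t (hPm t ht.1)
          rw [ht.2] at h2
          exact Finset.mem_Ico.2 h2
        simpa using Finset.card_le_card this
      have hw : w ≤ b ^ w := (Nat.lt_pow_self (by omega)).le
      calc ∑ t ∈ P.filter (fun t => f t = i), (d / b ^ t % b) * b ^ (t - a i)
          ≤ (P.filter fun t => f t = i).card • b ^ w := Finset.sum_le_card_nsmul _ _ _ hterm
        _ = (P.filter fun t => f t = i).card * b ^ w := by rw [smul_eq_mul]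
        _ ≤ b ^ w * b ^ w := Nat.mul_le_mul_right _ (hcard.trans hw)
        _ = b ^ (2 * w) := by ring
    rw [abs_of_nonneg (Finset.sum_nonneg fun t _ => by positivity)]
    dsimp only
    exact_mod_cast h1
  · intro i
    dsimp only
    split_ifs
    · exact ⟨a i, rfl⟩
    · exact ⟨0, rfl⟩
  · intro i
    dsimp only
    split_ifs with h
    · obtain ⟨t, ht⟩ := h
      rw [Finset.mem_filter] at ht
      have h2 := hf t (hPm t ht.1)
      rw [ht.2] at h2
      exact (Nat.pow_le_pow_right (by omega) h2.1).trans (hble t ht.1)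
    · exact hd
  · have h1 : ∀ i, (∑ t ∈ P.filter (fun t => f t = i), ((d / b ^ t % b : ℕ) : ℤ) *
        (b : ℤ) ^ (t - a i)) * ((if (P.filter fun t => f t = i).Nonempty then b ^ a i else 1 : ℕ) : ℤ)
        = ∑ t ∈ P.filter (fun t => f t = i), ((d / b ^ t % b : ℕ) : ℤ) * (b : ℤ) ^ t := by
      intro i
      split_ifs with h
      · rw [Finset.sum_mul]
        refine Finset.sum_congr rfl fun t ht => ?_
        rw [Finset.mem_filter] at ht
        have h2 := hf t (hPm t ht.1)
        rw [ht.2] at h2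
        push_cast
        rw [mul_assoc, ← pow_add, Nat.sub_add_cancel h2.1]
      · rw [Finset.not_nonempty_iff_eq_empty] at h
        rw [h]
        simp
    rw [Finset.sum_congr rfl fun i _ => h1 i, Finset.sum_fiberwise]
    exact_mod_cast hsumP

end Pool.Agent.J4.H52.FS
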