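import Mathlib
import Pool.Agent.J4.H52.FS.Core

/-!
# Uniform bounds for the common divisors of Fibonacci numbers with sums of almost units
-/

set_option autoImplicit false

namespace Pool.Agent.J4.H52.FS

open Filter Real

/-- the conditions on the data -/
def Cnd (b k : ℕ) (κ ε : ℝ) (n : ℕ) (m : Fin k → ℤ) (u : Fin k → ℕ) : Prop :=
  (∀ i, ∃ K, u i ∣ b ^ K) ∧ (∀ i, Real.log (u i) ≤ κ * n) ∧ ∑ i, m i * (u i : ℤ) ≠ 0 ∧
    ε * n < Real.log (Int.gcd (∑ i, m i * (u i : ℤ)) (Nat.fib n))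

theorem main1 (b : ℕ) (hb : 2 ≤ b) (k : ℕ) (κ : ℝ) (hκ0 : 0 ≤ κ) (ε : ℝ) (hε : 0 < ε) :
    ∃ δ : ℝ, 0 < δ ∧ ∃ n0 : ℕ, ∀ n : ℕ, n0 ≤ n → ∀ (m : Fin k → ℤ) (u : Fin k → ℕ),
      (∀ i, |(m i : ℝ)| ≤ Real.exp (δ * n)) → ¬ Cnd b k κ ε n m u := by
  classical
  by_contra hcon
  push Not at hcon
  -- the bad indices
  obtain ⟨A, hA⟩ : ∃ A : ℕ → Set ℕ, A = fun J => {n : ℕ | J ≤ n ∧ ∃ (m : Fin k → ℤ) (u : Fin k → ℕ),
      (∀ i, |(m i : ℝ)| ≤ Real.exp (1 / ((J : ℝ) + 1) * n)) ∧ Cnd b k κ ε n m u} := ⟨_, rfl⟩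
  have hAne : ∀ J, (A J).Nonempty := by
    intro J
    obtain ⟨n, hn, m, u, h1, h2⟩ := hcon (1 / ((J : ℝ) + 1)) (by positivity) J
    rw [hA]
    exact ⟨n, hn, m, u, h1, h2⟩
  have hAanti : Antitone A := by
    intro J J' hJ n hn
    rw [hA] at hn ⊢
    obtain ⟨h1, m, u, h2, h3⟩ := hn
    refine ⟨hJ.trans h1, m, u, fun i => (h2 i).trans (Real.exp_le_exp.2 ?_), h3⟩
    refine mul_le_mul_of_nonneg_right ?_ (Nat.cast_nonneg n)
    refine one_div_le_one_div_of_le (by positivity) ?_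
    have : (J : ℝ) ≤ J' := by exact_mod_cast hJ
    linarith
  have hNB : (⨅ J, 𝓟 (A J)).NeBot := by
    refine Filter.iInf_neBot_of_directed ?_ fun J => ?_
    · intro J J'
      refine ⟨max J J', ?_, ?_⟩
      · exact principal_mono.2 (hAanti (le_max_left _ _))
      · exact principal_mono.2 (hAanti (le_max_right _ _))
    · exact principal_neBot_iff.2 (hAne J)
  obtain ⟨𝒰, h𝒰A⟩ : ∃ 𝒰 : Ultrafilter ℕ, (𝒰 : Filter ℕ) ≤ ⨅ J, 𝓟 (A J) := Ultrafilter.exists_le _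
  have hev : ∀ J, ∀ᶠ n in (𝒰 : Filter ℕ), n ∈ A J := fun J =>
    le_principal_iff.1 (h𝒰A.trans (iInf_le _ J))
  have h𝒰 : (𝒰 : Filter ℕ) ≤ atTop := by
    rw [atTop, le_iInf_iff]
    intro J
    rw [le_principal_iff]
    filter_upwards [hev J] with n hn
    rw [hA] at hn
    exact hn.1
  -- the choice of the data with least coefficients
  have hch : ∀ n : ℕ, ∃ (m : Fin k → ℤ) (u : Fin k → ℕ), (∀ i, ∃ K, u i ∣ b ^ K) ∧
      ∀ J, n ∈ A J → (∀ i, |(m i : ℝ)| ≤ Real.exp (1 / ((J : ℝ) + 1) * n)) ∧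
        Cnd b k κ ε n m u := by
    intro n
    by_cases h : ∃ N : ℕ, ∃ (m : Fin k → ℤ) (u : Fin k → ℕ), (∀ i, |m i| ≤ N) ∧ Cnd b k κ ε n m u
    · obtain ⟨m, u, h1, h2⟩ := Nat.find_spec h
      refine ⟨m, u, h2.1, fun J hJ => ⟨fun i => ?_, h2⟩⟩
      rw [hA] at hJ
      obtain ⟨-, m', u', h3, h4⟩ := hJ
      have h5 : Nat.find h ≤ ⌊Real.exp (1 / ((J : ℝ) + 1) * n)⌋₊ := by
        refine Nat.find_min' h ⟨m', u', fun i => ?_, h4⟩
        have h6 : ((m' i).natAbs : ℝ) ≤ Real.exp (1 / ((J : ℝ) + 1) * n) := by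
          rw [Nat.cast_natAbs, Int.cast_abs]
          exact h3 i
        have h7 := Nat.le_floor h6
        rw [Int.abs_eq_natAbs]
        exact_mod_cast h7
      have h8 : |(m i : ℝ)| ≤ (Nat.find h : ℝ) := by
        rw [← Int.cast_abs]
        exact_mod_cast h1 i
      refine h8.trans ((by exact_mod_cast h5 : ((Nat.find h : ℕ) : ℝ) ≤
        (⌊Real.exp (1 / ((J : ℝ) + 1) * n)⌋₊ : ℝ)).trans ?_)
      exact Nat.floor_le (Real.exp_pos _).le
    · refine ⟨fun _ => 0, fun _ => 1, fun i => ⟨0, one_dvd _⟩, fun J hJ => ?_⟩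
      exfalso
      rw [hA] at hJ
      obtain ⟨-, m', u', -, h4⟩ := hJ
      refine h ⟨Finset.univ.sup fun i => (m' i).natAbs, m', u', fun i => ?_, h4⟩
      rw [Int.abs_eq_natAbs]
      exact_mod_cast Finset.le_sup (f := fun i => (m' i).natAbs) (Finset.mem_univ i)
  choose m u hub hdat using hch
  have hm : ∀ J : ℕ, ∀ᶠ n : ℕ in (𝒰 : Filter ℕ), ∀ i, |(m n i : ℝ)| ≤ Real.exp (1 / ((J : ℝ) + 1) * n) :=
    fun J => (hev J).mono fun n hn => (hdat n J hn).1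
  have hC : ∀ᶠ n : ℕ in (𝒰 : Filter ℕ), Cnd b k κ ε n (m n) (u n) :=
    (hev 0).mono fun n hn => (hdat n 0 hn).2
  refine core b hb 𝒰 h𝒰 (fun i n => m n i) (fun i n => u n i)
    (fun n => Int.gcd (∑ i, m n i * (u n i : ℤ)) (Nat.fib n)) (fun i n => hub n i) κ hκ0
    (fun i => hC.mono fun n hn => hn.2.1 i) (fun i => ?_) (hC.mono fun n hn => hn.2.2.1)
    (Eventually.of_forall fun n => ?_) (Eventually.of_forall fun n => Int.gcd_dvd_left _ _) ε hε
    (hC.mono fun n hn => hn.2.2.2.le)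
  · intro θ hθ
    obtain ⟨J, hJ⟩ := exists_nat_gt (1 / θ)
    filter_upwards [hm J] with n hn
    refine (hn i).trans (Real.exp_le_exp.2 ?_)
    rw [zero_add]
    refine mul_le_mul_of_nonneg_right ?_ (Nat.cast_nonneg n)
    rw [div_lt_iff₀ hθ] at hJ
    rw [div_le_iff₀ (by positivity)]
    nlinarith
  · have := Int.gcd_dvd_right (∑ i, m n i * (u n i : ℤ)) (Nat.fib n : ℤ)
    exact_mod_cast this

/-- a lower bound for the Fibonacci numbers -/
lemma pow_le_fib (k : ℕ) : goldenRatio ^ k ≤ (Nat.fib (k + 2) : ℝ) := by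
  induction k using Nat.twoStepInduction with
  | zero => simp
  | one =>
    have : (Nat.fib 3 : ℝ) = 2 := by norm_num [Nat.fib]
    norm_num
    exact goldenRatio_lt_two.le
  | more k h1 h2 =>
    have h3 : (Nat.fib (k + 2 + 2) : ℝ) = Nat.fib (k + 2) + Nat.fib (k + 3) := by
      exact_mod_cast Nat.fib_add_two
    have h4 : goldenRatio ^ (k + 2) = goldenRatio ^ k + goldenRatio ^ (k + 1) := by
      rw [pow_add, goldenRatio_sq, pow_succ]
      ring
    rw [h3, h4]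
    exact add_le_add h1 h2

/-- the bound for every large divisor `M` of a Fibonacci number -/
theorem main2 (b : ℕ) (hb : 2 ≤ b) (k : ℕ) (κ : ℝ) (ε : ℝ) (hε : 0 < ε) :
    ∃ δ : ℝ, 0 < δ ∧ ∃ n0 : ℕ, ∀ n : ℕ, n0 ≤ n → ∀ M : ℕ, M ∣ Nat.fib n →
      Real.log goldenRatio / 4 * n ≤ Real.log M → ∀ (m : Fin k → ℤ) (u : Fin k → ℕ),
      (∀ i, |(m i : ℝ)| ≤ (M : ℝ) ^ δ) → (∀ i, ∃ K, u i ∣ b ^ K) →
      (∀ i, (u i : ℝ) ≤ (M : ℝ) ^ κ) → ∑ i, m i * (u i : ℤ) ≠ 0 →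
      (Int.gcd (∑ i, m i * (u i : ℤ)) M : ℝ) ≤ (M : ℝ) ^ ε := by
  have hL : 0 < Real.log goldenRatio := Real.log_pos one_lt_goldenRatio
  obtain ⟨δ, hδ, n0, h⟩ := main1 b hb k (|κ| * Real.log goldenRatio) (by positivity)
    (ε * Real.log goldenRatio / 4) (by positivity)
  refine ⟨δ / Real.log goldenRatio, by positivity, max n0 1, ?_⟩
  intro n hn M hM hML m u hm hub hu hD
  have hn1 : 1 ≤ n := (le_max_right _ _).trans hn
  have hfpos : 0 < Nat.fib n := Nat.fib_pos.2 hn1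
  have hM0 : 0 < M := Nat.pos_of_dvd_of_pos hM hfpos
  have hMR : (0 : ℝ) < M := by exact_mod_cast hM0
  have hM1 : (1 : ℝ) ≤ M := by exact_mod_cast hM0
  have hMle : Real.log M ≤ Real.log goldenRatio * n := by
    have h1 : (M : ℝ) ≤ goldenRatio ^ n := by
      refine le_trans ?_ (fib_le_pow n)
      exact_mod_cast Nat.le_of_dvd hfpos hM
    have h2 := Real.log_le_log hMR h1
    rw [Real.log_pow] at h2
    linarith
  have hlM : 0 ≤ Real.log M := Real.log_nonneg hM1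
  by_contra hcon
  push Not at hcon
  refine h n ((le_max_left _ _).trans hn) m u (fun i => ?_) ⟨hub, fun i => ?_, hD, ?_⟩
  · refine (hm i).trans ?_
    rw [Real.rpow_def_of_pos hMR]
    refine Real.exp_le_exp.2 ?_
    have h1 : Real.log M * (δ / Real.log goldenRatio) ≤
        (Real.log goldenRatio * n) * (δ / Real.log goldenRatio) :=
      mul_le_mul_of_nonneg_right hMle (by positivity)
    refine h1.trans (le_of_eq ?_)
    field_simp
  · have hu0 : 0 < u i := by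
      obtain ⟨K, hK⟩ := hub i
      exact Nat.pos_of_dvd_of_pos hK (pow_pos (by omega) _)
    have h1 := Real.log_le_log (by exact_mod_cast hu0) (hu i)
    rw [Real.log_rpow hMR] at h1
    have h2 : κ * Real.log M ≤ |κ| * Real.log M :=
      mul_le_mul_of_nonneg_right (le_abs_self κ) hlM
    have h3 : |κ| * Real.log M ≤ |κ| * (Real.log goldenRatio * n) :=
      mul_le_mul_of_nonneg_left hMle (abs_nonneg _)
    linarith
  · have h1 : (0 : ℝ) < (M : ℝ) ^ ε := Real.rpow_pos_of_pos hMR _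
    have h2 := Real.log_lt_log h1 hcon
    rw [Real.log_rpow hMR] at h2
    have h3 : Int.gcd (∑ i, m i * (u i : ℤ)) M ≤ Int.gcd (∑ i, m i * (u i : ℤ)) (Nat.fib n) := by
      refine Nat.le_of_dvd ?_ ?_
      · exact Int.gcd_pos_of_ne_zero_left _ hD
      · exact Int.gcd_dvd_gcd_of_dvd_right _ (by exact_mod_cast hM)
    have h4 : (0 : ℝ) < Int.gcd (∑ i, m i * (u i : ℤ)) M := by
      exact_mod_cast Int.gcd_pos_of_ne_zero_left _ hD
    have h5 := Real.log_le_log h4 (by exact_mod_cast h3 :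
      (Int.gcd (∑ i, m i * (u i : ℤ)) M : ℝ) ≤ Int.gcd (∑ i, m i * (u i : ℤ)) (Nat.fib n))
    have h6 : ε * (Real.log goldenRatio / 4 * n) ≤ ε * Real.log M :=
      mul_le_mul_of_nonneg_left hML hε.le
    linarith

end Pool.Agent.J4.H52.FS
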