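import Mathlib
import Pool.Agent.J4.H52.FS.Digits

/-!
# Integers whose base `b` expansion consists of few periodic pieces
-/

set_option autoImplicit false

namespace Pool.Agent.J4.H52.FS

open Finset

/-- the value of the digits `A, ..., A + L - 1` -/
def Vd (b : ℕ) (c : ℕ → ℕ) (A L : ℕ) : ℕ := ∑ s ∈ range L, c (A + s) * b ^ s

lemma Vd_lt {b : ℕ} (c : ℕ → ℕ) (hc : ∀ t, c t < b) (A L : ℕ) : Vd b c A L < b ^ L := by
  induction L with
  | zero => simp [Vd]
  | succ L ih =>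
    unfold Vd at ih ⊢
    rw [sum_range_succ, pow_succ]
    have h1 : c (A + L) + 1 ≤ b := hc _
    have h2 := Nat.mul_le_mul_right (b ^ L) h1
    rw [add_mul, one_mul] at h2
    rw [mul_comm (b ^ L) b]
    omega

lemma Vd_add (b : ℕ) (c : ℕ → ℕ) (A L1 L2 : ℕ) :
    Vd b c A (L1 + L2) = Vd b c A L1 + b ^ L1 * Vd b c (A + L1) L2 := by
  unfold Vd
  rw [sum_range_add, mul_sum]
  congr 1
  refine sum_congr rfl fun s _ => ?_
  rw [pow_add, add_assoc]
  ring

/-- a periodic block -/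
lemma block {b : ℕ} (hb : 2 ≤ b) (c : ℕ → ℕ) (hc : ∀ t, c t < b) (A L r : ℕ)
    (hper : ∀ t, A ≤ t → t + r < A + L → c t = c (t + r)) :
    ∃ X Y : ℕ, X < b ^ r ∧ Y < b ^ r ∧
      ((b : ℤ) ^ r - 1) * (Vd b c A L : ℤ) = (b : ℤ) ^ (max L r) * X - Y := by
  rcases le_or_gt r L with h | h
  · obtain ⟨d, rfl⟩ : ∃ d, L = d + r := ⟨L - r, by omega⟩
    refine ⟨Vd b c (A + d) r, Vd b c A r, Vd_lt c hc _ _, Vd_lt c hc _ _, ?_⟩
    have h1 := Vd_add b c A d r
    have h2 := Vd_add b c A r d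
    have h3 : Vd b c (A + r) d = Vd b c A d := by
      unfold Vd
      refine sum_congr rfl fun s hs => ?_
      rw [mem_range] at hs
      have := hper (A + s) (by omega) (by omega)
      rw [this]
      congr 2
      omega
    rw [max_eq_left h]
    rw [add_comm r d, h3] at h2
    have h1' : (Vd b c A (d + r) : ℤ) = Vd b c A d + (b : ℤ) ^ d * Vd b c (A + d) r := by
      exact_mod_cast h1
    have h2' : (Vd b c A (d + r) : ℤ) = Vd b c A r + (b : ℤ) ^ r * Vd b c A d := by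
      exact_mod_cast h2
    rw [pow_add]
    linear_combination (b : ℤ) ^ r * h1' - h2'
  · refine ⟨Vd b c A L, Vd b c A L, ?_, ?_, ?_⟩
    · exact (Vd_lt c hc _ _).trans_le (Nat.pow_le_pow_right (by omega) h.le)
    · exact (Vd_lt c hc _ _).trans_le (Nat.pow_le_pow_right (by omega) h.le)
    · rw [max_eq_right h.le]
      ring

/-- sums over consecutive blocks -/
lemma sum_blocks (f : ℕ → ℕ) (a : ℕ → ℕ) (ha : Monotone a) (ha0 : a 0 = 0) (k : ℕ) :
    ∑ t ∈ range (a k), f t = ∑ j ∈ range k, ∑ t ∈ Ico (a j) (a (j + 1)), f t := by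
  induction k with
  | zero => simp [ha0]
  | succ k ih =>
    rw [sum_range_succ, ← ih, range_eq_Ico, range_eq_Ico,
      sum_Ico_consecutive f (Nat.zero_le _) (ha (Nat.le_succ k))]

theorem pp_decomp (b : ℕ) (hb : 2 ≤ b) (k : ℕ) (N : ℕ) (hN : 0 < N) (a : ℕ → ℕ) (ha : Monotone a)
    (ha0 : a 0 = 0) (hak : N < b ^ a k) (r : ℕ → ℕ) (R : ℕ) (hr1 : ∀ j < k, 1 ≤ r j)
    (hrR : ∀ j < k, r j ≤ R)
    (hper : ∀ j < k, ∀ t, a j ≤ t → t + r j < a (j + 1) → N / b ^ t % b = N / b ^ (t + r j) % b) :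
    ∃ (m : Fin k × Bool → ℤ) (u : Fin k × Bool → ℕ) (P : ℕ), 0 < P ∧
      (∀ i, |m i| ≤ (b : ℤ) ^ ((k + 1) * R)) ∧ (∀ i, ∃ K, u i = b ^ K) ∧
      (∀ i, u i ≤ b * N * b ^ R) ∧ ((N * P : ℕ) : ℤ) = ∑ i, m i * (u i : ℤ) := by
  classical
  obtain ⟨c, hcdef⟩ : ∃ c : ℕ → ℕ, c = fun t => N / b ^ t % b := ⟨_, rfl⟩
  have hc : ∀ t, c t < b := fun t => by
    rw [hcdef]
    exact Nat.mod_lt _ (by omega)
  obtain ⟨T, hT⟩ : ∃ T, T = Nat.log b N + 1 := ⟨_, rfl⟩
  have hT1 : N < b ^ T := by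
    rw [hT]
    exact Nat.lt_pow_succ_log_self (by omega) N
  have hT2 : b ^ T ≤ b * N := by
    rw [hT, pow_succ, mul_comm]
    exact Nat.mul_le_mul_left b (Nat.pow_log_le_self b hN.ne')
  have hTk : T ≤ a k := by
    rw [hT]
    have h1 := Nat.pow_log_le_self b hN.ne'
    have h2 : Nat.log b N < a k := (Nat.pow_lt_pow_iff_right (by omega)).1 (lt_of_le_of_lt h1 hak)
    omega
  obtain ⟨a', ha'⟩ : ∃ a' : ℕ → ℕ, a' = fun j => min (a j) T := ⟨_, rfl⟩
  have ha'm : Monotone a' := by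
    rw [ha']
    intro i j hij
    exact min_le_min_right T (ha hij)
  have ha'0 : a' 0 = 0 := by
    rw [ha']
    simp [ha0]
  have ha'k : a' k = T := by
    rw [ha']
    exact min_eq_right hTk
  have ha'T : ∀ j, a' j ≤ T := fun j => by
    rw [ha']
    exact min_le_right _ _
  -- the expansion
  have hexp : N = ∑ j ∈ range k, b ^ a' j * Vd b c (a' j) (a' (j + 1) - a' j) := by
    have h1 := sum_digits b N T
    rw [Nat.mod_eq_of_lt hT1, ← ha'k, sum_blocks _ a' ha'm ha'0 k] at h1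
    refine h1.trans (sum_congr rfl fun j _ => ?_)
    rw [sum_Ico_eq_sum_range]
    unfold Vd
    rw [mul_sum, hcdef]
    refine sum_congr rfl fun s _ => ?_
    show N / b ^ (a' j + s) % b * b ^ (a' j + s) = b ^ a' j * (N / b ^ (a' j + s) % b * b ^ s)
    rw [pow_add b (a' j) s]
    ring
  have hblock : ∀ j : Fin k, ∃ X Y : ℕ, X < b ^ r j ∧ Y < b ^ r j ∧
      ((b : ℤ) ^ r j - 1) * (Vd b c (a' j) (a' (j + 1) - a' j) : ℤ) =
        (b : ℤ) ^ (max (a' (j + 1) - a' j) (r j)) * X - Y := by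
    intro j
    refine block hb c hc _ _ _ fun t h1 h2 => ?_
    have h3 := hper j j.2 t
    rw [hcdef]
    have h4 : a' j ≤ a' ((j : ℕ) + 1) := ha'm (Nat.le_succ _)
    rw [Nat.add_sub_cancel' h4] at h2
    have h5 : t + r j < a (j + 1) := by
      rw [ha'] at h2
      exact lt_of_lt_of_le h2 (min_le_left _ _)
    have h6 : t < T := lt_of_lt_of_le (by omega) (ha'T ((j : ℕ) + 1))
    refine h3 ?_ h5
    rw [ha'] at h1
    have h7 : min (a j) T ≤ t := h1
    rcases min_le_iff.1 h7 with h | h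
    · exact h
    · omega
  choose X Y hX hY hXY using hblock
  obtain ⟨Q, hQ⟩ : ∃ Q : Fin k → ℕ, Q = fun j : Fin k =>
      ∏ i ∈ (univ : Finset (Fin k)).erase j, (b ^ r i - 1) := ⟨_, rfl⟩
  obtain ⟨P, hP⟩ : ∃ P : ℕ, P = ∏ i : Fin k, (b ^ r i - 1) := ⟨_, rfl⟩
  have hpos : ∀ i : Fin k, 0 < b ^ r i - 1 := fun i => by
    have : b ^ 1 ≤ b ^ r i := Nat.pow_le_pow_right (by omega) (hr1 i i.2)
    rw [pow_one] at this
    omega
  have hPQ : ∀ j : Fin k, (P : ℤ) = ((b : ℤ) ^ r j - 1) * Q j := by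
    intro j
    have h1 : P = (b ^ r j - 1) * Q j := by
      rw [hP, hQ]
      exact (mul_prod_erase univ (fun i : Fin k => b ^ r i - 1) (mem_univ j)).symm
    rw [h1, Nat.cast_mul, Nat.cast_sub (Nat.one_le_pow _ _ (by omega))]
    push_cast
    rfl
  have hQle : ∀ j : Fin k, Q j ≤ b ^ (k * R) := by
    intro j
    rw [hQ]
    have h1 : ∏ i ∈ (univ : Finset (Fin k)).erase j, (b ^ r i - 1) ≤
        ∏ _i ∈ (univ : Finset (Fin k)).erase j, b ^ R := by
      refine prod_le_prod' fun i _ => ?_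
      exact (Nat.sub_le _ _).trans (Nat.pow_le_pow_right (by omega) (hrR i i.2))
    refine h1.trans ?_
    rw [prod_const, ← pow_mul]
    refine Nat.pow_le_pow_right (by omega) ?_
    rw [mul_comm]
    refine Nat.mul_le_mul_right R ?_
    exact (card_erase_le).trans (by simp)
  have hsize : ∀ (j : Fin k) (Z : ℕ), Z < b ^ r j → |((Z * Q j : ℕ) : ℤ)| ≤ (b : ℤ) ^ ((k + 1) * R) := by
    intro j Z hZ
    rw [Nat.abs_cast]
    have h1 : Z * Q j ≤ b ^ R * b ^ (k * R) :=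
      Nat.mul_le_mul (hZ.le.trans (Nat.pow_le_pow_right (by omega) (hrR j j.2))) (hQle j)
    have h2 : b ^ R * b ^ (k * R) = b ^ ((k + 1) * R) := by
      rw [← pow_add]
      congr 1
      ring
    rw [h2] at h1
    exact_mod_cast h1
  refine ⟨fun i => if i.2 then ((X i.1 * Q i.1 : ℕ) : ℤ) else -((Y i.1 * Q i.1 : ℕ) : ℤ),
    fun i => if i.2 then b ^ (a' i.1 + max (a' ((i.1 : ℕ) + 1) - a' i.1) (r i.1)) else b ^ a' i.1,
    P, ?_, ?_, ?_, ?_, ?_⟩
  · rw [hP]
    exact prod_pos fun i _ => hpos i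
  · rintro ⟨j, _ | _⟩
    · simp only [Bool.false_eq_true, if_false, abs_neg]
      exact hsize j _ (hY j)
    · simp only [if_true]
      exact hsize j _ (hX j)
  · rintro ⟨j, _ | _⟩
    · exact ⟨a' j, by simp⟩
    · exact ⟨a' j + max (a' ((j : ℕ) + 1) - a' j) (r j), by simp⟩
  · have hb0 : ∀ K, K ≤ T + R → b ^ K ≤ b * N * b ^ R := by
      intro K hK
      calc b ^ K ≤ b ^ (T + R) := Nat.pow_le_pow_right (by omega) hK
        _ = b ^ T * b ^ R := pow_add _ _ _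
        _ ≤ b * N * b ^ R := Nat.mul_le_mul_right _ hT2
    rintro ⟨j, _ | _⟩
    · simp only [Bool.false_eq_true, if_false]
      exact hb0 _ (by have := ha'T j; omega)
    · simp only [if_true]
      refine hb0 _ ?_
      have h1 := ha'T j
      have h2 := ha'T ((j : ℕ) + 1)
      have h3 := hrR j j.2
      have h4 : a' j ≤ a' ((j : ℕ) + 1) := ha'm (Nat.le_succ _)
      rcases max_cases (a' ((j : ℕ) + 1) - a' j) (r j) with ⟨h, -⟩ | ⟨h, -⟩ <;> rw [h] <;> omega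
  · rw [Fintype.sum_prod_type]
    simp only [Fintype.sum_bool, if_true, Bool.false_eq_true, if_false]
    have h1 : ((N * P : ℕ) : ℤ) = ∑ j : Fin k, (b : ℤ) ^ a' j *
        (Vd b c (a' j) (a' ((j : ℕ) + 1) - a' j) : ℤ) * P := by
      rw [← sum_mul, Nat.cast_mul]
      congr 1
      have h2 : (N : ℤ) = ((∑ j ∈ range k, b ^ a' j * Vd b c (a' j) (a' (j + 1) - a' j) : ℕ) : ℤ) :=
        congrArg Nat.cast hexp
      rw [h2, Finset.sum_range]
      push_cast
      rfl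
    rw [h1]
    refine sum_congr rfl fun j _ => ?_
    rw [hPQ j]
    have h3 := hXY j
    push_cast
    rw [pow_add]
    linear_combination (b : ℤ) ^ a' j * Q j * h3

end Pool.Agent.J4.H52.FS
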